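import Pool.Agent.TH6.UT.Bound

/-!
# The natural module lies in the principal block
-/

set_option linter.unusedSectionVars false

open scoped BigOperators MatrixGroups Classical
open Polynomial

noncomputable section

namespace Pool.Agent.TH6.UT

variable {F K : Type} [Field F] [Fintype F] [CharP F 2] [Field K] [CharP K 2]

lemma uu_inv (t : F) : (uu t)⁻¹ = uu (-t) := by
  apply Subtype.ext
  rw [Matrix.SpecialLinearGroup.SL2_inv_expl]
  ext i j
  fin_cases i <;> fin_cases j <;> simp [uu]

lemma uu_conj (t : F) (g : Matrix.SpecialLinearGroup (Fin 2) F) :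
    (uu t * g * (uu t)⁻¹).1 = !![g.1 0 0 + t * g.1 1 0,
      -t * (g.1 0 0 + t * g.1 1 0) + (g.1 0 1 + t * g.1 1 1); g.1 1 0, -t * g.1 1 0 + g.1 1 1] := by
  rw [uu_inv]
  obtain ⟨M, hM⟩ := g
  show (!![1, t; 0, 1] * M) * !![1, -t; 0, 1] = !![M 0 0 + t * M 1 0,
      -t * (M 0 0 + t * M 1 0) + (M 0 1 + t * M 1 1); M 1 0, -t * M 1 0 + M 1 1]
  conv_lhs => rw [Matrix.eta_fin_two M]
  rw [Matrix.mul_fin_two, Matrix.mul_fin_two]
  ext i j
  fin_cases i <;> fin_cases j <;> simp <;> ring

/-- the key cancellation: a class function on `SL_2(F)` is orthogonal to `g ↦ g₀₀ - 1` -/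
lemma sum_zero (hF : 2 < Fintype.card F) (ι : F →+* K)
    (f : Matrix.SpecialLinearGroup (Fin 2) F → K) (hf : ∀ g h, f (h * g * h⁻¹) = f g) :
    ∑ g, f g * (ι (g.1 0 0) - 1) = 0 := by
  have h2K : (2 : K) = 0 := CharTwo.two_eq_zero
  have h2F : (2 : F) = 0 := CharTwo.two_eq_zero
  rw [← Finset.sum_filter_add_sum_filter_not Finset.univ
    (fun g : Matrix.SpecialLinearGroup (Fin 2) F => g.1 1 0 ≠ 0)]
  have hA : ∑ g ∈ Finset.univ.filter (fun g : Matrix.SpecialLinearGroup (Fin 2) F => g.1 1 0 ≠ 0),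
      f g * (ι (g.1 0 0) - 1) = 0 := by
    have h1 : ∑ g ∈ Finset.univ.filter (fun g : Matrix.SpecialLinearGroup (Fin 2) F =>
        g.1 1 0 ≠ 0), f g * (ι (g.1 0 0) - 1) =
        ∑ p ∈ (Finset.univ.filter (fun g : Matrix.SpecialLinearGroup (Fin 2) F =>
          g.1 1 0 ≠ 0 ∧ g.1 0 0 = 0)) ×ˢ (Finset.univ : Finset F),
          f p.1 * (ι (p.2 * p.1.1 1 0) - 1) := by
      symm
      refine Finset.sum_nbij' (fun p => uu p.2 * p.1 * (uu p.2)⁻¹)
        (fun g => (uu (-(g.1 0 0 / g.1 1 0)) * g * (uu (-(g.1 0 0 / g.1 1 0)))⁻¹,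
          g.1 0 0 / g.1 1 0)) ?_ ?_ ?_ ?_ ?_
      · rintro ⟨g, t⟩ hp
        simp only [Finset.mem_product, Finset.mem_filter, Finset.mem_univ, true_and, and_true] at hp ⊢
        rw [uu_conj]
        simpa using hp.1
      · intro g hg
        simp only [Finset.mem_product, Finset.mem_filter, Finset.mem_univ, true_and, and_true] at hg ⊢
        rw [uu_conj]
        refine ⟨by simpa using hg, ?_⟩
        simp
        field_simp
        ring
      · rintro ⟨g, t⟩ hp
        simp only [Finset.mem_product, Finset.mem_filter, Finset.mem_univ, true_and, and_true] at hp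
        have e1 : (uu t * g * (uu t)⁻¹).1 0 0 / (uu t * g * (uu t)⁻¹).1 1 0 = t := by
          rw [uu_conj]
          simp [hp.2, hp.1]
        simp only [e1]
        rw [← uu_inv]
        congr 1
        group
      · intro g hg
        simp only
        rw [← uu_inv]
        group
      · rintro ⟨g, t⟩ hp
        simp only [Finset.mem_product, Finset.mem_filter, Finset.mem_univ, true_and, and_true] at hp
        rw [hf, uu_conj]
        simp [hp.2]
    rw [h1, Finset.sum_product]
    refine Finset.sum_eq_zero fun g _ => ?_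
    simp only
    rw [← Finset.mul_sum, Finset.sum_sub_distrib]
    have h3 : ∑ t : F, ι (t * g.1 1 0) = 0 := by
      rw [← map_sum, ← Finset.sum_mul]
      have h4 := FiniteField.sum_pow_lt_card_sub_one F 1 (by omega)
      simp only [pow_one] at h4
      rw [h4, zero_mul, map_zero]
    rw [h3]
    have h5 : ((Fintype.card F : ℕ) : K) = 0 := by
      have h6 : ((Fintype.card F : ℕ) : F) = 0 := FiniteField.cast_card_eq_zero F
      rw [← map_natCast ι, h6, map_zero]
    simp [h5]
  have hB : ∑ g ∈ Finset.univ.filter (fun g : Matrix.SpecialLinearGroup (Fin 2) F =>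
      ¬ g.1 1 0 ≠ 0), f g * (ι (g.1 0 0) - 1) = 0 := by
    refine Finset.sum_involution (fun g _ => uu 1 * g * (uu 1)⁻¹) ?_ ?_ ?_ ?_
    · intro g hg
      simp only [Finset.mem_filter, Finset.mem_univ, true_and, not_not] at hg
      rw [hf, uu_conj]
      simp [hg]
      linear_combination (f g * (ι (g.1 0 0) - 1)) * h2K
    · intro g hg hne heq
      simp only [Finset.mem_filter, Finset.mem_univ, true_and, not_not] at hg
      apply hne
      have h3 : (uu 1 * g * (uu 1)⁻¹).1 0 1 = g.1 0 1 := by rw [heq]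
      rw [uu_conj] at h3
      simp [hg] at h3
      have hdet : g.1 0 0 * g.1 1 1 - g.1 0 1 * g.1 1 0 = 1 := by
        rw [← Matrix.det_fin_two]; exact g.2
      rw [hg] at hdet
      have h4 : g.1 1 1 = g.1 0 0 := by linear_combination h3
      rw [h4] at hdet
      have h5 : (g.1 0 0 - 1) ^ 2 = 0 := by linear_combination hdet + (1 - g.1 0 0) * h2F
      have h6 : g.1 0 0 = 1 := sub_eq_zero.1 (pow_eq_zero_iff (two_ne_zero) |>.1 h5)
      rw [h6]
      simp
    · intro g hg
      simp only [Finset.mem_filter, Finset.mem_univ, true_and, not_not] at hg ⊢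
      rw [uu_conj]
      simpa using hg
    · intro g hg
      have h3 : (uu (1 : F)) * uu 1 = 1 := by
        apply Subtype.ext
        show !![(1 : F), 1; 0, 1] * !![1, 1; 0, 1] = 1
        rw [Matrix.mul_fin_two]
        ext i j
        fin_cases i <;> fin_cases j <;> simp
        exact CharTwo.add_self_eq_zero 1
      have h4 : (uu (1 : F))⁻¹ = uu 1 := inv_eq_of_mul_eq_one_right h3
      rw [h4]
      calc uu 1 * (uu 1 * g * uu 1) * uu 1 = (uu 1 * uu 1) * g * (uu 1 * uu 1) := by group
        _ = g := by rw [h3]; group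
  rw [hA, hB, add_zero]

end Pool.Agent.TH6.UT
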