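import Pool.Agent.TH6.UT.Blk

/-!
# The principal block of `SL_2(2^n)`
-/

set_option linter.unusedSectionVars false

open scoped BigOperators MatrixGroups Classical
open Polynomial

noncomputable section

namespace Pool.Agent.TH6.UT

variable {O : ValuationSubring ℂ}

/-- the principal block -/
def B0 (O : ValuationSubring ℂ) (G : Type) [Group G] : Block O G :=
  (MonoidAlgebra.lift (Res O) (Res O) G (1 : G →* Res O)).comp
    (Subalgebra.center (Res O) (MonoidAlgebra (Res O) G)).val

lemma B0_apply {G : Type} [Group G] [Fintype G]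
    (z : Subalgebra.center (Res O) (MonoidAlgebra (Res O) G)) :
    B0 O G z = ∑ g : G, (z : MonoidAlgebra (Res O) G).coeff g := by
  show MonoidAlgebra.lift (Res O) (Res O) G (1 : G →* Res O) z.1 = _
  rw [MonoidAlgebra.lift_apply, Finsupp.sum_fintype _ _ (fun g => by simp)]
  simp

lemma B0_principal {G : Type} [Group G] [Fintype G] : IsPrincipal (B0 O G) := B0_apply

lemma coeff_conj {G : Type} [Group G] [Fintype G] {K : Type} [Field K]
    (z : Subalgebra.center K (MonoidAlgebra K G)) (g h : G) :
    (z : MonoidAlgebra K G).coeff (h * g * h⁻¹) = (z : MonoidAlgebra K G).coeff g := by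
  have h1 := Subalgebra.mem_center_iff.1 z.2 (MonoidAlgebra.of K G h)
  have h2 := congrArg (fun y : MonoidAlgebra K G => y.coeff (h * g)) h1
  simp only [MonoidAlgebra.of_apply] at h2
  rw [MonoidAlgebra.coeff_single_mul_eq_mul_coeff g (fun m' _ => mul_right_inj h),
    MonoidAlgebra.coeff_mul_single_eq_coeff_mul (h * g * h⁻¹)
      (fun m' _ => (eq_mul_inv_iff_mul_eq).symm)] at h2
  simpa using h2.symm

/-- the centre acts by scalars on an irreducible module -/
lemma center_scalar {K G V : Type} [Field K] [IsAlgClosed K] [Group G] [AddCommGroup V] [Module K V]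
    [FiniteDimensional K V] (ρ : Representation K G V) (hρ : ρ.IsIrreducible)
    (z : Subalgebra.center K (MonoidAlgebra K G)) :
    ∃ c : K, ρ.asAlgebraHom z = c • LinearMap.id := by
  have s1 : IsSimpleModule (MonoidAlgebra K G) ρ.asModule :=
    (Representation.irreducible_iff_isSimpleModule_asModule ρ).1 hρ
  let f : ρ.asModule →ₗ[MonoidAlgebra K G] ρ.asModule :=
    { toFun := fun v => (z : MonoidAlgebra K G) • v
      map_add' := fun v w => smul_add _ _ _
      map_smul' := fun r v => by
        simp only [RingHom.id_apply]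
        rw [smul_smul, smul_smul, Subalgebra.mem_center_iff.1 z.2 r] }
  obtain ⟨c, hc⟩ := (IsSimpleModule.algebraMap_end_bijective_of_isAlgClosed
    (A := MonoidAlgebra K G) (V := ρ.asModule) K).2 f
  refine ⟨c, ?_⟩
  apply LinearMap.ext
  intro v
  have h1 := LinearMap.congr_fun hc (ρ.asModuleEquiv.symm v)
  have h2 : (z : MonoidAlgebra K G) • (ρ.asModuleEquiv.symm v) = c • (ρ.asModuleEquiv.symm v) :=
    h1.symm
  have h3 := congrArg ρ.asModuleEquiv h2
  rw [Representation.asModuleEquiv_map_smul] at h3
  simpa using h3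

variable {F : Type} [Field F] [Fintype F] [CharP F 2]

lemma nat_in_block (hF : 2 < Fintype.card F) [CharP (Res O) 2] [IsAlgClosed (Res O)]
    (ι : F →+* Res O) (hirr : (rep ι {0}).IsIrreducible)
    (z : Subalgebra.center (Res O) (MonoidAlgebra (Res O) (Matrix.SpecialLinearGroup (Fin 2) F))) :
    (rep ι {0}).asAlgebraHom z = (B0 O _ z) • LinearMap.id := by
  obtain ⟨c, hc⟩ := center_scalar (rep ι {0}) hirr z
  rw [hc]
  congr 1
  have h1 : (z : MonoidAlgebra (Res O) (Matrix.SpecialLinearGroup (Fin 2) F)) =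
      ∑ g, (z : MonoidAlgebra (Res O) (Matrix.SpecialLinearGroup (Fin 2) F)).coeff g •
        MonoidAlgebra.of (Res O) _ g := by
    have h2 := MonoidAlgebra.sum_coeff_single
      (z : MonoidAlgebra (Res O) (Matrix.SpecialLinearGroup (Fin 2) F))
    rw [Finsupp.sum_fintype _ _ (fun g => by simp)] at h2
    conv_lhs => rw [← h2]
    refine Finset.sum_congr rfl fun g _ => ?_
    rw [MonoidAlgebra.of_apply, MonoidAlgebra.smul_single, smul_eq_mul, mul_one]
  have h2 := LinearMap.congr_fun hc (Pi.single (fun _ => 0) 1)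
  have h3 := congrFun h2 (fun _ => 0)
  rw [h1, map_sum] at h3
  simp only [map_smul, Representation.asAlgebraHom_of, LinearMap.sum_apply, LinearMap.smul_apply,
    Finset.sum_apply, Pi.smul_apply, smul_eq_mul, LinearMap.id_apply, Pi.single_eq_same,
    mul_one] at h3
  have h4 : ∀ g : Matrix.SpecialLinearGroup (Fin 2) F,
      rep ι {0} g (Pi.single (fun _ => 0) 1) (fun _ => 0) = ι (g.1 0 0) := by
    intro g
    rw [rep_apply, Finset.sum_eq_single (fun _ => 0)]
    · rw [Pi.single_eq_same, mul_one, ten_apply]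
      simp [mk_apply]
    · intro b _ hb
      rw [Pi.single_eq_of_ne hb, mul_zero]
    · intro h
      exact absurd (Finset.mem_univ _) h
  simp only [h4] at h3
  have h5 := sum_zero hF ι (fun g =>
    (z : MonoidAlgebra (Res O) (Matrix.SpecialLinearGroup (Fin 2) F)).coeff g) (coeff_conj z)
  simp only [mul_sub, mul_one, Finset.sum_sub_distrib] at h5
  rw [B0_apply, ← h3]
  exact sub_eq_zero.1 h5

/-- the number of involutions -/
lemma card_invol : (Finset.univ.filter fun g : Matrix.SpecialLinearGroup (Fin 2) F =>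
    IsConj (cc 0) g).card + 1 = Fintype.card F ^ 2 := by
  have h1 := sum_tr (F := F) (fun τ => if τ = 0 then 1 else 0)
  have h2F : (2 : F) = 0 := CharTwo.two_eq_zero
  have h2 : ∑ a ∈ Finset.univ.erase (0 : F), (if a + a⁻¹ = 0 then (1 : ℂ) else 0) = 1 := by
    rw [Finset.sum_eq_single (1 : F)]
    · rw [inv_one, CharTwo.add_self_eq_zero, if_pos rfl]
    · intro a ha ha1
      rw [if_neg]
      intro h0
      have ha0 : a ≠ 0 := Finset.ne_of_mem_erase ha
      have h3 : a * a = 1 := by
        have h4 : a * (a + a⁻¹) = 0 := by rw [h0, mul_zero]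
        rw [mul_add, mul_inv_cancel₀ ha0] at h4
        linear_combination h4 - h2F
      have h5 : (a - 1) ^ 2 = 0 := by linear_combination h3 + (1 - a) * h2F
      exact ha1 (sub_eq_zero.1 (pow_eq_zero_iff (two_ne_zero) |>.1 h5))
    · intro h
      exact absurd (Finset.mem_erase.2 ⟨one_ne_zero, Finset.mem_univ _⟩) h
  rw [h2, Finset.sum_ite_eq' Finset.univ (0 : F)] at h1
  have h3 : ∑ g : Matrix.SpecialLinearGroup (Fin 2) F, (if tr g = 0 then (1 : ℂ) else 0) =
      ((Finset.univ.filter fun g : Matrix.SpecialLinearGroup (Fin 2) F => tr g = 0).card : ℂ) := by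
    rw [Finset.card_filter]
    push_cast
    rfl
  rw [h3] at h1
  have h4 : (Finset.univ.filter fun g : Matrix.SpecialLinearGroup (Fin 2) F => tr g = 0) =
      insert 1 (Finset.univ.filter fun g : Matrix.SpecialLinearGroup (Fin 2) F =>
        IsConj (cc 0) g) := by
    ext g
    rw [Finset.mem_insert, Finset.mem_filter, Finset.mem_filter]
    simp only [Finset.mem_univ, true_and]
    constructor
    · intro h
      by_cases hg : g = 1
      · exact Or.inl hg
      · right
        rw [← h]
        exact conj_cc hg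
    · rintro (h | h)
      · rw [h, tr_one]
      · obtain ⟨x, hx⟩ := isConj_iff.1 h
        rw [← hx, tr_conj, tr_cc]
  rw [h4, Finset.card_insert_of_notMem] at h1
  · have h5 : (((Finset.univ.filter fun g : Matrix.SpecialLinearGroup (Fin 2) F =>
        IsConj (cc 0) g).card + 1 : ℕ) : ℂ) = ((Fintype.card F ^ 2 : ℕ) : ℂ) := by
      rw [h1]
      simp
      ring
    exact_mod_cast h5
  · intro h
    rw [Finset.mem_filter] at h
    have h6 := isConj_one_left.1 h.2
    have h7 := congrArg (fun x : Matrix.SpecialLinearGroup (Fin 2) F => x.1 0 0) h6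
    simp [cc] at h7

lemma classSum_coeff {G : Type} [Group G] [Fintype G] (k : Type) [Field k] (x g : G) :
    (classSum k x).coeff g = if IsConj x g then 1 else 0 := by
  unfold classSum
  rw [MonoidAlgebra.coeff_sum, Finsupp.finsetSum_apply, Finset.sum_eq_single g]
  · split_ifs
    · simp
    · simp
  · intro b _ hb
    split_ifs
    · simp [hb]
    · simp
  · intro h
    exact absurd (Finset.mem_univ _) h

lemma B0_invol [CharP (Res O) 2] {n : ℕ} (hn : 1 ≤ n) (hF : Fintype.card F = 2 ^ n) :
    B0 O (Matrix.SpecialLinearGroup (Fin 2) F)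
      ⟨classSum (Res O) (cc 0), classSum_mem (Res O) (cc 0)⟩ ≠ 0 := by
  rw [B0_apply]
  have h1 := card_invol (F := F)
  have h2 : (∑ g : Matrix.SpecialLinearGroup (Fin 2) F, (classSum (Res O) (cc 0)).coeff g) =
      ((Finset.univ.filter fun g : Matrix.SpecialLinearGroup (Fin 2) F =>
        IsConj (cc 0) g).card : Res O) := by
    rw [Finset.card_filter]
    push_cast
    refine Finset.sum_congr rfl fun g _ => ?_
    rw [classSum_coeff]
    by_cases h : IsConj (cc 0) g
    · rw [if_pos h, if_pos h]
    · rw [if_neg h, if_neg h]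
  show (∑ g : Matrix.SpecialLinearGroup (Fin 2) F, (classSum (Res O) (cc 0)).coeff g) ≠ 0
  rw [h2]
  intro h3
  have h4 := congrArg (fun m : ℕ => (m : Res O)) h1
  simp only [Nat.cast_add, h3, hF] at h4
  have h5 : ((2 : ℕ) : Res O) = 0 := by exact_mod_cast (CharTwo.two_eq_zero : (2 : Res O) = 0)
  rw [← pow_mul, Nat.cast_pow, h5, zero_pow (by omega)] at h4
  simp at h4

end Pool.Agent.TH6.UT
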