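import Pool.Agent.TH6.UT.Core

/-!
# Lower bounds for the number of coincidences
-/

set_option linter.unusedSectionVars false

open scoped BigOperators MatrixGroups Classical

noncomputable section

namespace Pool.Agent.TH6.UT

/-- opposite weight -/
def flip (I : Finset ℕ) (b : I → Fin 2) : I → Fin 2 := fun i => if b i = 0 then 1 else 0

lemma E_flip (I : Finset ℕ) (b : I → Fin 2) : E I (flip I b) = - E I b := by
  unfold E flip
  rw [← Finset.sum_neg_distrib]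
  refine Finset.sum_congr rfl fun i _ => ?_
  have ha : b i = 0 ∨ b i = 1 := by omega
  rcases ha with h | h <;> simp [h]

lemma mem_cnt {I : Finset ℕ} {a m : ℕ} {x y : (I → Fin 2) ⊕ Fin a}
    (h : (m : ℤ) ∣ ex I a x + ex I a y) : (x, y) ∈
      ((Finset.univ.filter fun p : ((I → Fin 2) ⊕ Fin a) × ((I → Fin 2) ⊕ Fin a) =>
        (m : ℤ) ∣ ex I a p.1 + ex I a p.2 : Finset _) : Set _) := by
  rw [Finset.mem_coe, Finset.mem_filter]
  exact ⟨Finset.mem_univ _, h⟩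

lemma cnt_ge (I : Finset ℕ) (a m : ℕ) : 2 ^ I.card + a ^ 2 ≤ cnt (ex I a) m := by
  have h1 : Fintype.card ((I → Fin 2) ⊕ (Fin a × Fin a)) = 2 ^ I.card + a ^ 2 := by
    simp [sq]
  rw [← h1, ← Finset.card_univ]
  unfold cnt
  refine Finset.card_le_card_of_injOn
    (fun y => Sum.elim (fun b => (Sum.inl b, Sum.inl (flip I b)))
      (fun p : Fin a × Fin a => (Sum.inr p.1, Sum.inr p.2)) y) ?_ ?_
  · rintro (b | p) _
    · apply mem_cnt
      simp [ex, E_flip]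
    · apply mem_cnt
      simp [ex]
  · rintro (b | p) _ (b' | p') _ h
    · simp at h
      rw [h.1]
    · simp at h
    · simp at h
    · simp at h
      rw [Prod.ext_iff.2 h]

lemma E_zero (n : ℕ) : E (Finset.range n) (fun _ => 0) = (((2 ^ n - 1 : ℕ)) : ℤ) := by
  unfold E
  simp only [if_true]
  rw [Finset.sum_coe_sort (Finset.range n) fun i => (2 : ℤ) ^ i]
  have h := Nat.geomSum_eq (le_refl 2) n
  have h2 : ∑ i ∈ Finset.range n, 2 ^ i = 2 ^ n - 1 := by simpa using h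
  exact_mod_cast h2

lemma E_one (n : ℕ) : E (Finset.range n) (fun _ => 1) = - (((2 ^ n - 1 : ℕ)) : ℤ) := by
  rw [← E_zero, ← E_flip]
  congr 1

lemma cnt_full {n : ℕ} (hn : 1 ≤ n) (a : ℕ) :
    2 ^ n + a ^ 2 + 2 + 4 * a ≤ cnt (ex (Finset.range n) a) (2 ^ n - 1) := by
  have h1 : Fintype.card (((Finset.range n → Fin 2) ⊕ (Fin a × Fin a)) ⊕
      (Bool ⊕ ((Bool × Fin a) ⊕ (Bool × Fin a)))) = 2 ^ n + a ^ 2 + 2 + 4 * a := by
    simp [sq]
    ring
  have hE : ∀ c : Bool, E (Finset.range n) (fun _ => if c then 1 else 0) =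
      if c then - (((2 ^ n - 1 : ℕ)) : ℤ) else (((2 ^ n - 1 : ℕ)) : ℤ) := by
    rintro (_ | _)
    · simpa using E_zero n
    · simpa using E_one n
  have hi : (⟨0, Finset.mem_range.2 (by omega)⟩ : Finset.range n) ∈ (Finset.univ : Finset (Finset.range n)) :=
    Finset.mem_univ _
  have hne : ∀ (c : Bool) (b : Finset.range n → Fin 2), b = (fun _ => if c then 1 else 0) →
      flip (Finset.range n) b ≠ (fun _ => if c then 1 else 0) := by
    intro c b hb h2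
    have h3 := congrFun h2 ⟨0, Finset.mem_range.2 (by omega)⟩
    have h4 := congrFun hb ⟨0, Finset.mem_range.2 (by omega)⟩
    unfold flip at h3
    rw [h4] at h3
    cases c <;> simp at h3
  have hc : ∀ c c' : Bool, (fun _ : Finset.range n => if c then (1 : Fin 2) else 0) =
      (fun _ => if c' then 1 else 0) → c = c' := by
    intro c c' h2
    have h3 := congrFun h2 ⟨0, Finset.mem_range.2 (by omega)⟩
    cases c <;> cases c' <;> simp at h3 ⊢
  rw [← h1, ← Finset.card_univ]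
  unfold cnt
  refine Finset.card_le_card_of_injOn
    (fun y => Sum.elim (Sum.elim (fun b => (Sum.inl b, Sum.inl (flip (Finset.range n) b)))
      (fun p : Fin a × Fin a => (Sum.inr p.1, Sum.inr p.2)))
      (Sum.elim (fun c => (Sum.inl (fun _ => if c then 1 else 0), Sum.inl (fun _ => if c then 1 else 0)))
      (Sum.elim (fun p : Bool × Fin a => (Sum.inl (fun _ => if p.1 then 1 else 0), Sum.inr p.2))
       (fun p : Bool × Fin a => (Sum.inr p.2, Sum.inl (fun _ => if p.1 then 1 else 0))))) y) ?_ ?_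
  · rintro ((b | p) | (c | p | p)) _
    · apply mem_cnt
      simp [ex, E_flip]
    · apply mem_cnt
      simp [ex]
    · apply mem_cnt
      simp only [ex, Sum.elim_inl]
      rw [hE]
      cases c
      · exact dvd_add dvd_rfl dvd_rfl
      · exact dvd_add (dvd_neg.2 dvd_rfl) (dvd_neg.2 dvd_rfl)
    · apply mem_cnt
      simp only [ex, Sum.elim_inl, Sum.elim_inr, add_zero]
      rw [hE]
      cases p.1
      · exact dvd_rfl
      · exact dvd_neg.2 dvd_rfl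
    · apply mem_cnt
      simp only [ex, Sum.elim_inl, Sum.elim_inr, zero_add]
      rw [hE]
      cases p.1
      · exact dvd_rfl
      · exact dvd_neg.2 dvd_rfl
  · rintro ((b | p) | (c | p | p)) _ ((b' | p') | (c' | p' | p')) _ h <;>
      simp only [Sum.elim_inl, Sum.elim_inr, Prod.mk.injEq, Sum.inl.injEq, Sum.inr.injEq,
        reduceCtorEq, and_false, false_and] at h
    · rw [h.1]
    · exact absurd h.2 (hne c' b h.1)
    · rw [Prod.ext_iff.2 h]
    · exact absurd h.2.symm (hne c b' h.1.symm)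
    · rw [hc c c' h.1]
    · rw [Prod.ext_iff.2 ⟨hc _ _ h.1, h.2⟩]
    · rw [Prod.ext_iff.2 ⟨hc _ _ h.2, h.1⟩]

lemma numeric {n k a c1 c2 : ℕ} {x : ℤ} (hn : 3 ≤ n) (hk1 : 1 ≤ k) (hkn : k < n)
    (h1 : 2 ^ k + a ^ 2 ≤ c1) (h2 : 2 ^ k + a ^ 2 ≤ c2)
    (h : (2 : ℤ) ^ n * (c1 + c2) + 2 * x ^ 2 = 2 * 2 ^ n + 2 * (2 ^ k + a) ^ 2) : False := by
  have hq8 : (8 : ℤ) ≤ 2 ^ n := by
    calc (8 : ℤ) = 2 ^ 3 := by norm_num
      _ ≤ 2 ^ n := pow_le_pow_right₀ (by norm_num) hn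
  have hqy : 2 * (2 : ℤ) ^ k ≤ 2 ^ n := by
    rw [← pow_succ']
    exact pow_le_pow_right₀ (by norm_num) hkn
  have hy : (2 : ℤ) ^ k = 2 ∨ 4 ≤ (2 : ℤ) ^ k := by
    rcases Nat.eq_or_lt_of_le hk1 with h3 | h3
    · left; rw [← h3]; norm_num
    · right
      calc (4 : ℤ) = 2 ^ 2 := by norm_num
        _ ≤ 2 ^ k := pow_le_pow_right₀ (by norm_num) h3
  have h1' : (2 : ℤ) ^ k + (a : ℤ) ^ 2 ≤ c1 := by exact_mod_cast h1
  have h2' : (2 : ℤ) ^ k + (a : ℤ) ^ 2 ≤ c2 := by exact_mod_cast h2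
  have hx : 0 ≤ x ^ 2 := sq_nonneg x
  set q : ℤ := (2 : ℤ) ^ n with hq
  set y : ℤ := (2 : ℤ) ^ k with hy'
  have ha : (0 : ℤ) ≤ a := Int.natCast_nonneg a
  set b : ℤ := (a : ℤ) with hb
  have h3 : q * (2 * (y + b ^ 2)) ≤ q * (c1 + c2) :=
    mul_le_mul_of_nonneg_left (by linarith) (by linarith)
  have h4 : q * (y + b ^ 2 - 1) ≤ (y + b) ^ 2 := by nlinarith
  -- contradiction
  have hb3 : b = 0 ∨ b = 1 ∨ 2 ≤ b := by omega
  rcases hb3 with h5 | h5 | h5
  · rw [h5] at h4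
    rcases hy with h6 | h6
    · rw [h6] at h4; nlinarith
    · nlinarith [mul_le_mul_of_nonneg_right hqy (by linarith : (0 : ℤ) ≤ y - 1)]
  · rw [h5] at h4
    rcases hy with h6 | h6
    · rw [h6] at h4; nlinarith
    · nlinarith [mul_le_mul_of_nonneg_right hqy (by linarith : (0 : ℤ) ≤ y)]
  · have hy0 : 0 ≤ y := by rcases hy with h6 | h6 <;> linarith
    have h7 : 2 * y ^ 2 ≤ q * y := by
      have := mul_le_mul_of_nonneg_right hqy hy0
      linarith [this, sq y]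
    have h8 : 8 * (b ^ 2 - 1) ≤ q * (b ^ 2 - 1) :=
      mul_le_mul_of_nonneg_right hq8 (by nlinarith)
    nlinarith [sq_nonneg (y - b)]

lemma numeric_full {n a c1 c2 : ℕ} {x : ℤ} (hn : 3 ≤ n)
    (h1 : 2 ^ n + a ^ 2 + 2 + 4 * a ≤ c1) (h2 : 2 ^ n + a ^ 2 ≤ c2)
    (h : (2 : ℤ) ^ n * (c1 + c2) + 2 * x ^ 2 = 2 * 2 ^ n + 2 * (2 ^ n + a) ^ 2) :
    a = 0 ∧ x = 0 := by
  have hq8 : (8 : ℤ) ≤ 2 ^ n := by
    calc (8 : ℤ) = 2 ^ 3 := by norm_num
      _ ≤ 2 ^ n := pow_le_pow_right₀ (by norm_num) hn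
  have h1' : (2 : ℤ) ^ n + (a : ℤ) ^ 2 + 2 + 4 * a ≤ c1 := by exact_mod_cast h1
  have h2' : (2 : ℤ) ^ n + (a : ℤ) ^ 2 ≤ c2 := by exact_mod_cast h2
  have hx : 0 ≤ x ^ 2 := sq_nonneg x
  set q : ℤ := (2 : ℤ) ^ n with hq
  have ha : (0 : ℤ) ≤ a := Int.natCast_nonneg a
  have h3 : q * (2 * q + 2 * (a : ℤ) ^ 2 + 2 + 4 * a) ≤ q * (c1 + c2) :=
    mul_le_mul_of_nonneg_left (by linarith) (by linarith)
  have h4 : q * (a : ℤ) ^ 2 + x ^ 2 ≤ (a : ℤ) ^ 2 := by nlinarith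
  have h5 : 8 * (a : ℤ) ^ 2 ≤ q * (a : ℤ) ^ 2 := mul_le_mul_of_nonneg_right hq8 (sq_nonneg _)
  have h6 : (a : ℤ) ^ 2 = 0 := by nlinarith [sq_nonneg (a : ℤ)]
  have h7 : (a : ℤ) = 0 := by simpa using h6
  refine ⟨by exact_mod_cast h7, ?_⟩
  rw [h6, mul_zero, zero_add] at h4
  have h8 : x ^ 2 = 0 := le_antisymm h4 hx
  simpa using h8

variable {O : ValuationSubring ℂ} {F : Type} [Field F] [Fintype F] [CharP F 2]

/-- **Main step.** If an irreducible character `χ` of `SL_2(2^n)`, `n ≥ 3`, restricts on `2`-regular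
elements to `a + φ_I` with `I` nonempty, then `I` is the full set, `a = 0`, and `χ` vanishes on
involutions. -/
theorem main_step {n : ℕ} (hn : 3 ≤ n) (hF : Fintype.card F = 2 ^ n)
    (hO : ((2 : ℕ) : ℂ) ∈ O.nonunits) (ι : F →+* Res O) {I : Finset ℕ} (hI : I ⊆ Finset.range n)
    (hI0 : I.Nonempty) {a : ℕ}
    {χ : Matrix.SpecialLinearGroup (Fin 2) F → ℂ} (hχ : IsIrr χ)
    (h1 : χ 1 = a + brauer 2 O (@rep F (Res O) _ _ (charP_res Nat.prime_two hO) ι I) 1)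
    (hτ : ∀ τ : F, τ ≠ 0 →
      χ (cc τ) = a + brauer 2 O (@rep F (Res O) _ _ (charP_res Nat.prime_two hO) ι I) (cc τ)) :
    χ (cc 0) = 0 := by
  obtain ⟨x, hx, hid⟩ := identity (by omega) hF hO ι hχ h1 hτ
  by_cases hfull : I = Finset.range n
  · subst hfull
    rw [Finset.card_range] at hid
    have h2 := cnt_ge (Finset.range n) a (2 ^ n + 1)
    rw [Finset.card_range] at h2
    obtain ⟨-, h3⟩ := numeric_full hn (cnt_full (by omega) a) h2 hid
    rw [hx, h3]; simp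
  · exfalso
    have hlt : I.card < n := by
      have := Finset.card_lt_card (lt_of_le_of_ne hI hfull)
      rwa [Finset.card_range] at this
    exact numeric hn (Finset.card_pos.2 hI0) hlt (cnt_ge I a _) (cnt_ge I a _) hid

end Pool.Agent.TH6.UT
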