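import Pool.Agent.TH6.UT.Defs

/-!
# The residue field: characteristic, algebraic closedness, lifts of roots of unity
-/

open scoped BigOperators Classical
open Polynomial

noncomputable section

namespace Pool.Agent.TH6.UT

variable {O : ValuationSubring ℂ} {l : ℕ}

lemma res_eq_zero_iff (w : O) : IsLocalRing.residue O w = 0 ↔ (w : ℂ) ∈ O.nonunits := by
  rw [IsLocalRing.residue_eq_zero_iff, ValuationSubring.coe_mem_nonunits_iff]

lemma res_natCast (n : ℕ) : IsLocalRing.residue O (n : O) = (n : Res O) := map_natCast _ n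

lemma res_l (hl : (l : ℂ) ∈ O.nonunits) : (l : Res O) = 0 := by
  rw [← res_natCast, res_eq_zero_iff]
  exact_mod_cast hl

lemma charP_res (hp : l.Prime) (hl : (l : ℂ) ∈ O.nonunits) : CharP (Res O) l := by
  have h1 : ringChar (Res O) ∣ l := ringChar.dvd (res_l hl)
  rcases (Nat.dvd_prime hp).1 h1 with h | h
  · exfalso
    have h2 : ((1 : ℕ) : Res O) = 0 := by
      rw [← h]; exact ringChar.Nat.cast_ringChar
    simp at h2
  · rw [← h]; exact ringChar.charP _

lemma isAlgClosed_res : IsAlgClosed (Res O) := by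
  apply IsAlgClosed.of_exists_root
  intro p hp hirr
  have hsurj : Function.Surjective (IsLocalRing.residue O) := IsLocalRing.residue_surjective
  have hl : p ∈ Polynomial.lifts (IsLocalRing.residue O) := by
    rw [Polynomial.mem_lifts]
    exact Polynomial.map_surjective _ hsurj p
  obtain ⟨P, hP, hdeg, hmon⟩ := Polynomial.lifts_and_natDegree_eq_and_monic hl hp
  have hd : (P.map (algebraMap O ℂ)).degree ≠ 0 := by
    intro h
    have h1 : (P.map (algebraMap O ℂ)).natDegree = 0 := natDegree_eq_of_degree_eq_some h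
    rw [hmon.natDegree_map, hdeg] at h1
    have h2 := hirr.natDegree_pos
    omega
  obtain ⟨a, ha⟩ := IsAlgClosed.exists_root (P.map (algebraMap O ℂ)) hd
  have hint : IsIntegral O a := by
    refine ⟨P, hmon, ?_⟩
    rw [IsRoot.def, eval_map] at ha
    exact ha
  obtain ⟨y, hy⟩ := (IsIntegrallyClosed.isIntegral_iff (K := ℂ)).1 hint
  refine ⟨IsLocalRing.residue O y, ?_⟩
  have h3 : P.eval y = 0 := by
    rw [IsRoot.def, ← hy, eval_map, eval₂_hom] at ha
    exact (map_eq_zero_iff _ (FaithfulSMul.algebraMap_injective O ℂ)).1 ha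
  rw [← hP, eval_map, eval₂_hom, h3, map_zero]

/-- two roots of unity of order prime to `l` with the same reduction are equal -/
lemma eq_of_res (hp : l.Prime) (hl : (l : ℂ) ∈ O.nonunits) {y z : O} {m n : ℕ} (hm : ¬ l ∣ m)
    (hn : ¬ l ∣ n) (hy : (y : ℂ) ^ m = 1) (hz : (z : ℂ) ^ n = 1)
    (h : IsLocalRing.residue O y = IsLocalRing.residue O z) : y = z := by
  have hy' : y ^ m = 1 := by exact_mod_cast hy
  have hz' : z ^ n = 1 := by exact_mod_cast hz
  have hn0 : n ≠ 0 := fun h0 => hn (h0 ▸ dvd_zero l)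
  -- w = y * z ^ (n - 1)
  set w : O := y * z ^ (n - 1) with hw
  have hzz : z ^ (n - 1) * z = 1 := by rw [← pow_succ, Nat.sub_add_cancel (Nat.pos_of_ne_zero hn0), hz']
  have hwN : w ^ (m * n) = 1 := by
    rw [hw, mul_pow, pow_mul, hy', one_pow, one_mul, ← pow_mul, mul_comm m n, ← mul_assoc,
      mul_comm (n - 1) n, mul_assoc, pow_mul, hz', one_pow]
  have hwr : IsLocalRing.residue O w = 1 := by
    rw [hw, map_mul, h, ← map_mul, mul_comm, hzz, map_one]
  have hw1 : w = 1 := by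
    by_contra hne
    have h1 : (∑ i ∈ Finset.range (m * n), w ^ i) * (w - 1) = 0 := by
      rw [geom_sum_mul, hwN, sub_self]
    have h2 : ∑ i ∈ Finset.range (m * n), w ^ i = 0 := by
      rcases mul_eq_zero.1 h1 with h2 | h2
      · exact h2
      · exact absurd (sub_eq_zero.1 h2) hne
    have h3 : IsLocalRing.residue O (∑ i ∈ Finset.range (m * n), w ^ i) = ((m * n : ℕ) : Res O) := by
      rw [map_sum]
      simp [hwr]
    rw [h2, map_zero] at h3
    haveI := charP_res hp hl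
    have h4 : l ∣ m * n := (CharP.cast_eq_zero_iff (Res O) l _).1 h3.symm
    rcases (Nat.Prime.dvd_mul hp).1 h4 with h5 | h5
    · exact hm h5
    · exact hn h5
  calc y = y * (z ^ (n - 1) * z) := by rw [hzz, mul_one]
    _ = w * z := by rw [hw]; ring
    _ = z := by rw [hw1, one_mul]

lemma lift_eq (hp : l.Prime) (hl : (l : ℂ) ∈ O.nonunits) {y : O} {m : ℕ} (hm : ¬ l ∣ m)
    (hy : (y : ℂ) ^ m = 1) {x : Res O} (hx : IsLocalRing.residue O y = x) :
    lift l O x = y := by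
  have h : ∃ z : O, IsLocalRing.residue O z = x ∧ ∃ n : ℕ, ¬ l ∣ n ∧ (z : ℂ) ^ n = 1 :=
    ⟨y, hx, m, hm, hy⟩
  unfold lift
  rw [dif_pos h]
  obtain ⟨h1, n, hn, h2⟩ := h.choose_spec
  rw [eq_of_res hp hl hn hm h2 hy (h1.trans hx.symm)]

lemma root_mem {y : ℂ} {m : ℕ} (hm : m ≠ 0) (hy : y ^ m = 1) : y ∈ O := by
  have h1 : IsIntegral O y := by
    refine ⟨X ^ m - 1, ?_, ?_⟩
    · simpa using monic_X_pow_sub_C (1 : O) hm
    · simp [hy]
  obtain ⟨w, hw⟩ := (IsIntegrallyClosed.isIntegral_iff (K := ℂ)).1 h1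
  rw [← hw]
  exact w.2

/-- roots of unity can be lifted -/
lemma exists_lift {m : ℕ} (hm : m ≠ 0) {x : Res O} (hx : x ^ m = 1) :
    ∃ y : O, (y : ℂ) ^ m = 1 ∧ IsLocalRing.residue O y = x := by
  obtain ⟨w, hw⟩ := IsLocalRing.residue_surjective x
  have hprim := Complex.isPrimitiveRoot_exp m hm
  have h1 : (w : ℂ) ^ m - 1 = ∏ ζ ∈ nthRootsFinset m (1 : ℂ), ((w : ℂ) - ζ) := by
    have h2 := X_pow_sub_one_eq_prod (Nat.pos_of_ne_zero hm) hprim
    have h3 := congrArg (Polynomial.eval (w : ℂ)) h2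
    simpa [eval_prod] using h3
  have hmem : ∀ ζ ∈ nthRootsFinset m (1 : ℂ), ζ ∈ O := fun ζ hζ =>
    root_mem hm ((mem_nthRootsFinset (Nat.pos_of_ne_zero hm) (1 : ℂ)).1 hζ)
  have h4 : w ^ m - 1 = ∏ ζ ∈ (nthRootsFinset m (1 : ℂ)).attach, (w - ⟨ζ.1, hmem ζ.1 ζ.2⟩) := by
    apply Subtype.ext
    push_cast
    rw [h1, ← Finset.prod_attach]
  have h5 := congrArg (IsLocalRing.residue O) h4
  rw [map_sub, map_pow, hw, hx, map_one, sub_self, map_prod] at h5
  obtain ⟨ζ, -, hζ⟩ := Finset.prod_eq_zero_iff.1 h5.symm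
  rw [map_sub, sub_eq_zero, hw] at hζ
  exact ⟨⟨ζ.1, hmem ζ.1 ζ.2⟩, (mem_nthRootsFinset (Nat.pos_of_ne_zero hm) (1 : ℂ)).1 ζ.2, hζ.symm⟩

end Pool.Agent.TH6.UT
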