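import Pool.Agent.TH6.UT.Classify
import Pool.Agent.TH6.UT.Fld

/-!
# The Brauer characters of the modules `V_I`
-/

set_option linter.unusedSectionVars false

open scoped BigOperators MatrixGroups Classical
open Polynomial

noncomputable section

namespace Pool.Agent.TH6.UT

variable {O : ValuationSubring ℂ} {l : ℕ}

lemma brauer_congr {G V W : Type} [Group G] [AddCommGroup V] [Module (Res O) V]
    [FiniteDimensional (Res O) V] [AddCommGroup W] [Module (Res O) W] [FiniteDimensional (Res O) W]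
    (ρ : Representation (Res O) G V) (σ : Representation (Res O) G W)
    (e : ρ.asModule ≃ₗ[MonoidAlgebra (Res O) G] σ.asModule) : brauer l O ρ = brauer l O σ := by
  funext g
  let e' : V ≃ₗ[Res O] W :=
    (ρ.asModuleEquiv.symm.trans (e.restrictScalars (Res O))).trans σ.asModuleEquiv
  have h1 : σ g = e'.conj (ρ g) := by
    apply LinearMap.ext
    intro w
    rw [LinearEquiv.conj_apply_apply]
    obtain ⟨v, rfl⟩ := e'.surjective w
    rw [LinearEquiv.symm_apply_apply]
    show σ g (σ.asModuleEquiv (e (ρ.asModuleEquiv.symm v))) =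
      σ.asModuleEquiv (e (ρ.asModuleEquiv.symm (ρ g v)))
    rw [Representation.asModuleEquiv_symm_map_rho, map_smul,
      Representation.asModuleEquiv_map_smul, Representation.asAlgebraHom_of]
  unfold brauer
  rw [h1, LinearEquiv.charpoly_conj]

lemma brauer_diag {G J : Type} [Group G] [Fintype J] [DecidableEq J]
    (ρ : Representation (Res O) G (J → Res O)) (g : G) (hg : ¬ l ∣ orderOf g)
    (U : (Matrix J J (Res O))ˣ) (d : J → Res O)
    (h : ρ g = Matrix.toLin' (U.val * Matrix.diagonal d * U⁻¹.val)) :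
    brauer l O ρ g = ∑ j, lift l O (d j) := by
  unfold brauer
  rw [if_neg hg, h, Matrix.charpoly_toLin', Matrix.coe_units_inv, Matrix.charpoly_units_conj,
    Matrix.charpoly_diagonal]
  have h1 : (∏ i, (X - C (d i))).roots = Multiset.map d Finset.univ.val := by
    have h2 : (∏ i, (X - C (d i))) =
        (Multiset.map (fun a => X - C a) (Multiset.map d Finset.univ.val)).prod := by
      rw [Multiset.map_map]; rfl
    rw [h2]
    exact roots_multiset_prod_X_sub_C _
  rw [h1, Multiset.map_map]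
  rfl

lemma zpow_sum' {J : Type} (s : Finset J) (f : J → ℤ) {z : ℂ} (hz : z ≠ 0) :
    z ^ (∑ j ∈ s, f j) = ∏ j ∈ s, z ^ f j := by
  induction s using Finset.induction_on with
  | empty => simp
  | insert a s ha ih => rw [Finset.sum_insert ha, Finset.prod_insert ha, zpow_add₀ hz, ih]

/-- exponents of the eigenvalues -/
def E (I : Finset ℕ) (a : I → Fin 2) : ℤ :=
  ∑ i : I, (if a i = 0 then (2 : ℤ) ^ (i : ℕ) else - 2 ^ (i : ℕ))

variable {F : Type} [Field F] [Fintype F] [CharP F 2]

lemma lift_prod (hO : ((2 : ℕ) : ℂ) ∈ O.nonunits) {m : ℕ} (hm : ¬ 2 ∣ m) {z : O}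
    (hz : (z : ℂ) ^ m = 1) (I : Finset ℕ) (a : I → Fin 2) :
    lift 2 O (∏ i : I, (![IsLocalRing.residue O z, (IsLocalRing.residue O z)⁻¹] (a i)) ^
      (2 ^ (i : ℕ))) = (z : ℂ) ^ E I a := by
  have hm0 : m ≠ 0 := fun h0 => hm (h0 ▸ dvd_zero 2)
  have hz' : z ^ m = 1 := by exact_mod_cast hz
  have hz0 : (z : ℂ) ≠ 0 := by
    intro h0
    rw [h0, zero_pow hm0] at hz
    exact zero_ne_one hz
  have hzz : z * z ^ (m - 1) = 1 := by
    rw [← pow_succ', Nat.sub_add_cancel (Nat.pos_of_ne_zero hm0), hz']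
  have hres : IsLocalRing.residue O (z ^ (m - 1)) = (IsLocalRing.residue O z)⁻¹ := by
    apply eq_inv_of_mul_eq_one_right
    rw [← map_mul, hzz, map_one]
  have hzc : (z : ℂ) ^ (m - 1) = (z : ℂ)⁻¹ := by
    apply eq_inv_of_mul_eq_one_right
    rw [← pow_succ', Nat.sub_add_cancel (Nat.pos_of_ne_zero hm0), hz]
  have h1 := lift_eq Nat.prime_two hO (y := ∏ i : I, (![z, z ^ (m - 1)] (a i)) ^ (2 ^ (i : ℕ)))
    (m := m) hm (by
      have h2 : (∏ i : I, (![z, z ^ (m - 1)] (a i)) ^ (2 ^ (i : ℕ))) ^ m = 1 := by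
        rw [← Finset.prod_pow]
        refine Finset.prod_eq_one fun i _ => ?_
        rw [← pow_mul, mul_comm, pow_mul]
        have ha : a i = 0 ∨ a i = 1 := by omega
        rcases ha with h | h <;> rw [h]
        · simp [hz']
        · simp only [Matrix.cons_val_one, Matrix.cons_val_zero]
          rw [← pow_mul z (m - 1) m, mul_comm (m - 1) m, pow_mul z, hz', one_pow, one_pow]
      exact_mod_cast congrArg (Subtype.val) h2) (x := ∏ i : I, (![IsLocalRing.residue O z, (IsLocalRing.residue O z)⁻¹] (a i)) ^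
      (2 ^ (i : ℕ))) (by
      rw [map_prod]
      refine Finset.prod_congr rfl fun i _ => ?_
      rw [map_pow]
      have ha : a i = 0 ∨ a i = 1 := by omega
      rcases ha with h | h <;> rw [h]
      · rfl
      · simp only [Matrix.cons_val_one, Matrix.cons_val_zero]
        rw [hres])
  rw [h1]
  unfold E
  rw [zpow_sum' _ _ hz0]
  push_cast
  refine Finset.prod_congr rfl fun i _ => ?_
  have ha : a i = 0 ∨ a i = 1 := by omega
  rcases ha with h | h <;> rw [h]
  · simp
    norm_cast
  · simp only [Matrix.cons_val_one, Matrix.cons_val_zero]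
    push_cast
    rw [hzc]
    simp
    norm_cast

/-- the conjugating matrix -/
def PP {K : Type} [Field K] (x : K) (hx : x⁻¹ - x ≠ 0) : (Matrix (Fin 2) (Fin 2) K)ˣ :=
  Matrix.GeneralLinearGroup.mkOfDetNeZero !![1, 1; x, x⁻¹]
    (by rw [Matrix.det_fin_two_of]; simpa using hx)

lemma cc_diag {K : Type} [Field K] [CharP K 2] (ι : F →+* K) {τ : F} {x : K} (hx0 : x ≠ 0)
    (hx : x⁻¹ - x ≠ 0) (h : x * x + 1 = ι τ * x) :
    mk ι (cc τ) = (PP x hx).val * Matrix.diagonal ![x, x⁻¹] * ((PP x hx)⁻¹).val := by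
  have h1 : mk ι (cc τ) * (PP x hx).val = (PP x hx).val * Matrix.diagonal ![x, x⁻¹] := by
    have h2 : (2 : K) = 0 := CharTwo.two_eq_zero
    have e0 : mk ι (cc τ) = !![0, 1; 1, ι τ] := by
      ext i j
      rw [mk_apply]
      fin_cases i <;> fin_cases j <;> simp [cc]
    have e1 : (PP x hx).val = !![1, 1; x, x⁻¹] := rfl
    have e2 : Matrix.diagonal ![x, x⁻¹] = !![x, 0; 0, x⁻¹] := by
      ext i j
      fin_cases i <;> fin_cases j <;> simp
    have e3 : x⁻¹ * x⁻¹ + 1 = ι τ * x⁻¹ := by
      field_simp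
      linear_combination h
    rw [e0, e1, e2, Matrix.mul_fin_two, Matrix.mul_fin_two]
    ext i j
    fin_cases i <;> fin_cases j <;> simp
    · linear_combination (-1) * h + h2
    · linear_combination (-1) * e3 + h2
  rw [← h1, mul_assoc]
  simp

end Pool.Agent.TH6.UT
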