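import Pool.Agent.TH6.UT.Br

/-!
# Values of the Brauer characters of `V_I`
-/

set_option linter.unusedSectionVars false

open scoped BigOperators MatrixGroups Classical
open Polynomial

noncomputable section

namespace Pool.Agent.TH6.UT

variable {O : ValuationSubring ℂ} {F : Type} [Field F] [Fintype F] [CharP F 2]

section field

variable {K : Type} [Field K] [CharP K 2]

lemma mk_injective (ι : F →+* K) : Function.Injective (mk ι) := by
  intro g h hgh
  apply Subtype.ext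
  ext i j
  have := congrFun (congrFun hgh i) j
  rw [mk_apply, mk_apply] at this
  exact ι.injective this

lemma mk_pow (ι : F →+* K) (g : Matrix.SpecialLinearGroup (Fin 2) F) (m : ℕ) :
    mk ι (g ^ m) = mk ι g ^ m := by
  induction m with
  | zero => simp [mk_one]
  | succ m ih => rw [pow_succ, pow_succ, mk_mul, ih]

lemma root_ne {τ : F} (hτ : τ ≠ 0) (ι : F →+* K) {x : K} (h : x * x + 1 = ι τ * x) :
    x ≠ 0 ∧ x⁻¹ - x ≠ 0 := by
  have hx0 : x ≠ 0 := by
    rintro rfl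
    simp at h
  refine ⟨hx0, fun h1 => ?_⟩
  have h2 : (2 : K) = 0 := CharTwo.two_eq_zero
  have h3 : x * x = 1 := by
    field_simp at h1
    linear_combination (-1) * h1
  have h4 : ι τ * x = 0 := by
    rw [← h]
    linear_combination h3 + h2
  rcases mul_eq_zero.1 h4 with h5 | h5
  · exact hτ ((map_eq_zero ι).1 h5)
  · exact hx0 h5

lemma root_exists [IsAlgClosed K] (t : K) : ∃ x : K, x * x + 1 = t * x := by
  have hd : (X ^ 2 - C t * X + 1 : K[X]).degree ≠ 0 := by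
    have : (X ^ 2 - C t * X + 1 : K[X]) = C 1 * X ^ 2 + C (-t) * X + C 1 := by
      simp; ring
    rw [this, degree_quadratic one_ne_zero]
    norm_num
  obtain ⟨x, hx⟩ := IsAlgClosed.exists_root _ hd
  refine ⟨x, ?_⟩
  simp at hx
  linear_combination hx

lemma root_pow {n : ℕ} (hF : Fintype.card F = 2 ^ n) {τ : F} (ι : F →+* K) {x : K} (hx0 : x ≠ 0)
    (h : x * x + 1 = ι τ * x) : x ^ (2 ^ n - 1) = 1 ∨ x ^ (2 ^ n + 1) = 1 := by
  have h1 : (ι τ) ^ (2 ^ n) = ι τ := by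
    rw [← map_pow, ← hF, FiniteField.pow_card]
  have h2 : (x * x + 1) ^ (2 ^ n) = (ι τ * x) ^ (2 ^ n) := by rw [h]
  rw [pow_add2, mul_pow, mul_pow, one_pow, h1] at h2
  set y := x ^ (2 ^ n) with hy
  -- y * y + 1 = t * y
  have h3 : (y - x) * (x * y - 1) = 0 := by linear_combination x * h2 - y * h
  have hpos : 1 ≤ 2 ^ n := Nat.one_le_two_pow
  rcases mul_eq_zero.1 h3 with h4 | h4
  · left
    have h5 : x ^ (2 ^ n - 1) * x = 1 * x := by
      rw [← pow_succ, Nat.sub_add_cancel hpos, one_mul]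
      exact sub_eq_zero.1 h4
    exact mul_right_cancel₀ hx0 h5
  · right
    rw [pow_succ', ← hy]
    exact sub_eq_zero.1 h4

lemma cc_pow {τ : F} (hτ : τ ≠ 0) (ι : F →+* K) {x : K} (h : x * x + 1 = ι τ * x) {m : ℕ}
    (hx : x ^ m = 1) : (cc τ) ^ m = 1 := by
  obtain ⟨hx0, hx1⟩ := root_ne hτ ι h
  apply mk_injective ι
  rw [mk_pow, mk_one, cc_diag ι hx0 hx1 h, Units.conj_pow]
  have h1 : (Matrix.diagonal ![x, x⁻¹]) ^ m = 1 := by
    rw [Matrix.diagonal_pow, ← Matrix.diagonal_one]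
    congr 1
    funext i
    fin_cases i
    · simpa using hx
    · simpa using hx
  rw [h1]
  simp

end field

lemma brauer_cc (hO : ((2 : ℕ) : ℂ) ∈ O.nonunits) [CharP (Res O) 2] (ι : F →+* Res O) {τ : F}
    (hτ : τ ≠ 0) {m : ℕ} (hm : ¬ 2 ∣ m) {z : O} (hz : (z : ℂ) ^ m = 1)
    (h : IsLocalRing.residue O z * IsLocalRing.residue O z + 1 = ι τ * IsLocalRing.residue O z)
    (I : Finset ℕ) :
    ¬ 2 ∣ orderOf (cc τ) ∧
      brauer 2 O (rep ι I) (cc τ) = ∑ a : I → Fin 2, (z : ℂ) ^ E I a := by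
  have hz' : z ^ m = 1 := by exact_mod_cast hz
  have hxm : IsLocalRing.residue O z ^ m = 1 := by rw [← map_pow, hz', map_one]
  have h1 : ¬ 2 ∣ orderOf (cc τ) := by
    intro h2
    exact hm (h2.trans (orderOf_dvd_of_pow_eq_one (cc_pow hτ ι h hxm)))
  refine ⟨h1, ?_⟩
  obtain ⟨hx0, hx1⟩ := root_ne hτ ι h
  rw [brauer_diag (rep ι I) (cc τ) h1 (Units.map (tenHom I) (PP (IsLocalRing.residue O z) hx1))
    (fun a => ∏ i : I, (![IsLocalRing.residue O z, (IsLocalRing.residue O z)⁻¹] (a i)) ^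
      (2 ^ (i : ℕ)))]
  · exact Finset.sum_congr rfl fun a _ => lift_prod hO hm hz I a
  · show Matrix.toLin' (ten I (mk ι (cc τ))) = _
    rw [cc_diag ι hx0 hx1 h, ten_mul, ten_mul, ten_diagonal]
    rfl

lemma brauer_one (hO : ((2 : ℕ) : ℂ) ∈ O.nonunits) [CharP (Res O) 2] (ι : F →+* Res O)
    (I : Finset ℕ) : brauer 2 O (rep ι I) 1 = 2 ^ I.card := by
  rw [brauer_diag (rep ι I) 1 (by simp) 1 (fun _ => 1)]
  · have h1 : lift 2 O 1 = 1 := by
      have := lift_eq Nat.prime_two hO (y := 1) (m := 1) (by norm_num) (by simp) (x := 1) (by simp)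
      simpa using this
    simp [h1]
  · rw [map_one]
    simp
    rfl

end Pool.Agent.TH6.UT
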