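import Mathlib

/-!
# Separating an irreducible module from finitely many others
-/

open scoped BigOperators

noncomputable section

namespace Pool.Agent.TH6.UT

lemma semisimple_prod {A M N : Type} [Ring A] [AddCommGroup M] [Module A M] [AddCommGroup N]
    [Module A N] [IsSemisimpleModule A M] [IsSemisimpleModule A N] :
    IsSemisimpleModule A (M × N) := by
  refine isSemisimpleModule_of_isSemisimpleModule_submodule'
    (p := fun b : Bool => if b then LinearMap.range (LinearMap.inl A M N)
      else LinearMap.range (LinearMap.inr A M N)) ?_ ?_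
  · rintro (_ | _)
    · exact .range _
    · exact .range _
  · rw [iSup_bool_eq]
    exact LinearMap.sup_range_inl_inr

theorem sep_module {K A M N : Type} [Field K] [IsAlgClosed K] [Ring A] [Algebra K A]
    [AddCommGroup M] [Module K M] [Module A M] [IsScalarTower K A M] [FiniteDimensional K M]
    [IsSimpleModule A M]
    [AddCommGroup N] [Module K N] [Module A N] [IsScalarTower K A N] [FiniteDimensional K N]
    [IsSemisimpleModule A N]
    (h1 : ∀ f : M →ₗ[A] N, f = 0) (h2 : ∀ f : N →ₗ[A] M, f = 0) (e : M →ₗ[K] M) :
    ∃ r : A, (∀ m : M, r • m = e m) ∧ ∀ x : N, r • x = 0 := by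
  have hss : IsSemisimpleModule A (M × N) := semisimple_prod
  have hfin : Module.Finite (Module.End A (M × N)) (M × N) :=
    Module.Finite.of_restrictScalars_finite K (Module.End A (M × N)) (M × N)
  let f : Module.End (Module.End A (M × N)) (M × N) :=
    { toFun := fun p => (e p.1, 0)
      map_add' := fun p q => by simp
      map_smul' := fun φ p => by
        simp only [Module.End.smul_def, RingHom.id_apply]
        -- components of φ
        have c1 : (LinearMap.snd A M N) ∘ₗ φ ∘ₗ (LinearMap.inl A M N) = 0 := h1 _
        have c2 : (LinearMap.fst A M N) ∘ₗ φ ∘ₗ (LinearMap.inr A M N) = 0 := h2 _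
        obtain ⟨c, hc⟩ := (IsSimpleModule.algebraMap_end_bijective_of_isAlgClosed (A := A) (V := M) K).2
          ((LinearMap.fst A M N) ∘ₗ φ ∘ₗ (LinearMap.inl A M N))
        have d1 : ∀ m : M, (φ (m, 0)).2 = 0 := fun m => by simpa using LinearMap.congr_fun c1 m
        have d2 : ∀ x : N, (φ (0, x)).1 = 0 := fun x => by simpa using LinearMap.congr_fun c2 x
        have d3 : ∀ m : M, (φ (m, 0)).1 = c • m := fun m => by
          have := LinearMap.congr_fun hc m
          simpa using this.symm
        have d4 : (φ p).1 = c • p.1 := by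
          have h5 : p = (p.1, 0) + (0, p.2) := by simp
          calc (φ p).1 = (φ ((p.1, 0) + (0, p.2))).1 := by rw [← h5]
            _ = (φ (p.1, 0)).1 + (φ (0, p.2)).1 := by rw [map_add]; rfl
            _ = c • p.1 := by rw [d2, d3, add_zero]
        apply Prod.ext
        · show e (φ p).1 = (φ (e p.1, 0)).1
          rw [d4, d3, map_smul]
        · show (0 : N) = (φ (e p.1, 0)).2
          rw [d1] }
  obtain ⟨r, hr⟩ := Module.Finite.toModuleEnd_moduleEnd_surjective (R := A) (M := M × N) f
  have hr' : ∀ p : M × N, r • p = f p := fun p => by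
    rw [← hr]; rfl
  refine ⟨r, fun m => ?_, fun x => ?_⟩
  · have := congrArg Prod.fst (hr' (m, 0))
    simpa [f] using this
  · have := congrArg Prod.snd (hr' (0, x))
    simpa [f] using this

variable {K G : Type} [Field K] [IsAlgClosed K] [Group G]

/-- If an irreducible representation `ρ` is isomorphic to none of the irreducible representations
`σ i`, there is an element of the group algebra acting on `ρ` with trace `1` and on all `σ i` as
zero. -/
theorem exists_sep {V : Type} [AddCommGroup V] [Module K V] [FiniteDimensional K V]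
    (ρ : Representation K G V) (hρ : ρ.IsIrreducible) {n : ℕ} {W : Fin n → Type}
    [∀ i, AddCommGroup (W i)] [∀ i, Module K (W i)] [∀ i, FiniteDimensional K (W i)]
    (σ : ∀ i, Representation K G (W i)) (hσ : ∀ i, (σ i).IsIrreducible)
    (hne : ∀ i, IsEmpty (ρ.asModule ≃ₗ[MonoidAlgebra K G] (σ i).asModule)) :
    ∃ r : MonoidAlgebra K G, LinearMap.trace K V (ρ.asAlgebraHom r) = 1 ∧
      ∀ i, (σ i).asAlgebraHom r = 0 := by
  have s1 : IsSimpleModule (MonoidAlgebra K G) ρ.asModule :=
    (Representation.irreducible_iff_isSimpleModule_asModule ρ).1 hρ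
  have s2 : ∀ i, IsSimpleModule (MonoidAlgebra K G) (σ i).asModule := fun i =>
    (Representation.irreducible_iff_isSimpleModule_asModule (σ i)).1 (hσ i)
  have hV : Nontrivial V := IsSimpleModule.nontrivial (MonoidAlgebra K G) ρ.asModule
  obtain ⟨v, hv⟩ := exists_ne (0 : V)
  obtain ⟨f, hf⟩ : ∃ f : V →ₗ[K] K, f v ≠ 0 := by
    have h0 : v ∉ (⊥ : Submodule K V) := by simpa using hv
    obtain ⟨f, hf, -⟩ := Submodule.exists_le_ker_of_notMem h0
    exact ⟨f, hf⟩
  let e : V →ₗ[K] V := (f.smulRight ((f v)⁻¹ • v))
  have he : LinearMap.trace K V e = 1 := by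
    rw [LinearMap.trace_smulRight]
    simp [hf]
  let e' : ρ.asModule →ₗ[K] ρ.asModule :=
    ρ.asModuleEquiv.symm.toLinearMap ∘ₗ e ∘ₗ ρ.asModuleEquiv.toLinearMap
  obtain ⟨r, hr1, hr2⟩ := sep_module (K := K) (A := MonoidAlgebra K G) (M := ρ.asModule)
    (N := ∀ i, (σ i).asModule) (fun φ => by
      apply LinearMap.ext
      intro m
      funext i
      rcases LinearMap.bijective_or_eq_zero ((LinearMap.proj i) ∘ₗ φ) with h | h
      · exact ((hne i).false (LinearEquiv.ofBijective _ h)).elim
      · exact LinearMap.congr_fun h m) (fun φ => by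
      apply LinearMap.pi_ext'
      intro i
      rcases LinearMap.bijective_or_eq_zero (φ ∘ₗ (LinearMap.single _ _ i)) with h | h
      · exact ((hne i).false (LinearEquiv.ofBijective _ h).symm).elim
      · simpa using h) e'
  refine ⟨r, ?_, fun i => ?_⟩
  · have : ρ.asAlgebraHom r = e := by
      apply LinearMap.ext
      intro m
      have := hr1 (ρ.asModuleEquiv.symm m)
      have h2 := congrArg ρ.asModuleEquiv this
      rw [Representation.asModuleEquiv_map_smul] at h2
      simpa [e'] using h2
    rw [this, he]
  · apply LinearMap.ext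
    intro m
    have := congrFun (hr2 (Pi.single i ((σ i).asModuleEquiv.symm m))) i
    have h2 := congrArg (σ i).asModuleEquiv this
    simp only [Pi.smul_apply, Pi.single_eq_same] at h2
    rw [Representation.asModuleEquiv_map_smul] at h2
    simpa using h2

end Pool.Agent.TH6.UT
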