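import Pool.Agent.TH6.UT.Conj
import Pool.Agent.TH6.UT.Dens

/-!
# The irreducible modules of `SL_2(2^n)` in characteristic two are the `V_I`
-/

set_option linter.unusedSectionVars false

open scoped BigOperators MatrixGroups Classical
open Polynomial

noncomputable section

namespace Pool.Agent.TH6.UT

variable {F K : Type} [Field F] [Fintype F] [CharP F 2] [Field K] [CharP K 2]

lemma trace_algHom {G V : Type} [Group G] [Fintype G] [AddCommGroup V] [Module K V]
    (ρ : Representation K G V) (r : MonoidAlgebra K G) :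
    LinearMap.trace K V (ρ.asAlgebraHom r) = ∑ g, r.coeff g * ρ.character g := by
  have h1 : r = ∑ g, r.coeff g • MonoidAlgebra.of K G g := by
    have h2 := MonoidAlgebra.sum_coeff_single r
    rw [Finsupp.sum_fintype _ _ (fun g => by simp)] at h2
    conv_lhs => rw [← h2]
    refine Finset.sum_congr rfl fun g _ => ?_
    rw [MonoidAlgebra.of_apply, MonoidAlgebra.smul_single, smul_eq_mul, mul_one]
  conv_lhs => rw [h1]
  rw [map_sum, map_sum]
  refine Finset.sum_congr rfl fun g _ => ?_
  rw [map_smul, Representation.asAlgebraHom_of, map_smul, smul_eq_mul]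
  rfl

lemma char_rep (ι : F →+* K) (I : Finset ℕ) (g : Matrix.SpecialLinearGroup (Fin 2) F) :
    (rep ι I).character g = ι (tr g) ^ (∑ i ∈ I, 2 ^ i) := by
  show LinearMap.trace K _ (Matrix.toLin' (ten I (mk ι g))) = _
  rw [Matrix.trace_toLin'_eq, trace_ten, Matrix.trace_fin_two, mk_apply, mk_apply, ← map_add]
  rfl

lemma char_cc {V : Type} [AddCommGroup V] [Module K V] [FiniteDimensional K V]
    (ρ : Representation K (Matrix.SpecialLinearGroup (Fin 2) F) V)
    (g : Matrix.SpecialLinearGroup (Fin 2) F) : ρ.character g = ρ.character (cc (tr g)) := by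
  by_cases hg : g = 1
  · subst hg
    rw [tr_one]
    have h1 : IsNilpotent (ρ (cc 0) - 1) := by
      refine ⟨2, ?_⟩
      have h2 : ρ (cc 0) * ρ (cc 0) = 1 := by rw [← map_mul, cc_sq, map_one]
      have h3 : ∀ x : V →ₗ[K] V, x + x = 0 := fun x => by
        rw [← two_smul K x, CharTwo.two_eq_zero, zero_smul]
      have h5 : (ρ (cc 0) - 1) ^ 2 = ρ (cc 0) * ρ (cc 0) + 1 - (ρ (cc 0) + ρ (cc 0)) := by
        noncomm_ring
      rw [h5, h2, h3, h3, sub_zero]
    have h4 := (LinearMap.isNilpotent_trace_of_isNilpotent h1).eq_zero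
    rw [map_sub, sub_eq_zero] at h4
    rw [Representation.character, Representation.character, h4, map_one]
  · obtain ⟨x, hx⟩ := isConj_iff.1 (conj_cc hg)
    rw [← hx, tr_conj, tr_cc, Representation.char_conj]

lemma interp {q : ℕ} (hq : Fintype.card F = q) (ι : F →+* K) (h : F → K) :
    ∃ c : Fin q → K, ∀ τ, h τ = ∑ m : Fin q, c m * ι τ ^ (m : ℕ) := by
  set P := Lagrange.interpolate (Finset.univ : Finset F) (fun x => ι x) h with hP
  have hinj : Set.InjOn (fun x => ι x) ((Finset.univ : Finset F) : Set F) :=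
    fun x _ y _ hxy => ι.injective hxy
  have hdeg : P.natDegree < q := by
    by_cases hP0 : P = 0
    · rw [hP0, ← hq]
      simp [Fintype.card_pos]
    · rw [Polynomial.natDegree_lt_iff_degree_lt hP0, hP, ← hq]
      exact Lagrange.degree_interpolate_lt h hinj
  refine ⟨fun m => P.coeff m, fun τ => ?_⟩
  have h1 : P.eval (ι τ) = h τ := Lagrange.eval_interpolate_at_node h hinj (Finset.mem_univ τ)
  rw [← h1, Polynomial.eval_eq_sum_range' hdeg, Finset.sum_range]

/-- the binary digits -/
def bits (m : ℕ) : Finset ℕ := m.bitIndices.toFinset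

lemma sum_bits (m : ℕ) : ∑ i ∈ bits m, 2 ^ i = m := Finset.sum_toFinset_bitIndices_two_pow m

lemma bits_sub {n m : ℕ} (h : m < 2 ^ n) : bits m ⊆ Finset.range n := by
  intro i hi
  rw [Finset.mem_range]
  have h1 : 2 ^ i ≤ ∑ j ∈ bits m, 2 ^ j := Finset.single_le_sum (f := fun j => 2 ^ j) (fun _ _ => Nat.zero_le _) hi
  rw [sum_bits] at h1
  exact (Nat.pow_lt_pow_iff_right (by norm_num)).1 (h1.trans_lt h)

/-- the irreducible modules of `SL_2(2^n)` in characteristic two are the `V_I` -/
theorem classify [IsAlgClosed K] {n : ℕ} (hF : Fintype.card F = 2 ^ n) (ι : F →+* K)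
    {V : Type} [AddCommGroup V] [Module K V] [FiniteDimensional K V]
    (ρ : Representation K (Matrix.SpecialLinearGroup (Fin 2) F) V) (hρ : ρ.IsIrreducible) :
    ∃ I ⊆ Finset.range n, Nonempty (ρ.asModule
      ≃ₗ[MonoidAlgebra K (Matrix.SpecialLinearGroup (Fin 2) F)] (rep ι I).asModule) := by
  by_contra hcon
  push Not at hcon
  obtain ⟨r, hr1, hr2⟩ := exists_sep ρ hρ (n := 2 ^ n) (fun m => rep ι (bits m))
    (fun m => rep_irreducible ι hF (bits_sub m.2)) (fun m => hcon _ (bits_sub m.2))
  obtain ⟨c, hc⟩ := interp hF ι (fun τ => ρ.character (cc τ))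
  have h1 : LinearMap.trace K V (ρ.asAlgebraHom r) =
      ∑ m : Fin (2 ^ n), c m * LinearMap.trace K _ ((rep ι (bits m)).asAlgebraHom r) := by
    simp only [trace_algHom, char_rep, sum_bits]
    simp only [Finset.mul_sum]
    rw [Finset.sum_comm]
    refine Finset.sum_congr rfl fun g _ => ?_
    rw [char_cc ρ g, hc (tr g), Finset.mul_sum]
    refine Finset.sum_congr rfl fun m _ => ?_
    ring
  rw [hr1] at h1
  simp [hr2] at h1

end Pool.Agent.TH6.UT
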