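import Pool.Agent.TH6.UT.Conj

/-!
# Sums over `SL_2(F)` of functions of the trace
-/

set_option linter.unusedSectionVars false

open scoped BigOperators MatrixGroups Classical

noncomputable section

namespace Pool.Agent.TH6.UT

variable {F : Type} [Field F] [Fintype F]

/-- entries of the elements of `SL_2(F)` -/
def slEquiv : Matrix.SpecialLinearGroup (Fin 2) F ≃
    {p : F × F × F × F // p.1 * p.2.1 - p.2.2.1 * p.2.2.2 = 1} where
  toFun g := ⟨(g.1 0 0, g.1 1 1, g.1 0 1, g.1 1 0), by
    have := g.2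
    rw [Matrix.det_fin_two] at this
    exact this⟩
  invFun p := ⟨!![p.1.1, p.1.2.2.1; p.1.2.2.2, p.1.2.1], by
    rw [Matrix.det_fin_two_of]
    exact p.2⟩
  left_inv g := by
    apply Subtype.ext
    ext i j
    fin_cases i <;> fin_cases j <;> rfl
  right_inv p := by
    apply Subtype.ext
    rfl

lemma sum_bc (s : F) (w : ℂ) : ∑ b : F, ∑ c : F, (if b * c = s then w else 0) =
    ((Fintype.card F : ℂ) - 1) * w + if s = 0 then (Fintype.card F : ℂ) * w else 0 := by
  have h1 : ∀ b : F, ∑ c : F, (if b * c = s then w else 0) =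
      w + if b = 0 then (if s = 0 then (Fintype.card F : ℂ) * w else 0) - w else 0 := by
    intro b
    by_cases hb : b = 0
    · rw [if_pos hb, hb]
      by_cases hs : s = 0
      · simp [hs]
      · have : ∀ c : F, ¬ (0 * c = s) := fun c h => hs (by rw [← h, zero_mul])
        simp [hs, Ne.symm hs]
    · rw [if_neg hb, add_zero, Finset.sum_eq_single (s / b)]
      · rw [if_pos (by field_simp)]
      · intro c _ hc
        rw [if_neg]
        intro h
        apply hc
        rw [← h]
        field_simp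
      · intro h
        exact absurd (Finset.mem_univ _) h
  rw [Finset.sum_congr rfl fun b _ => h1 b, Finset.sum_add_distrib, Finset.sum_ite_eq' Finset.univ 0]
  simp
  ring

/-- sum over `SL_2(F)` of a function of the trace -/
theorem sum_tr (Ψ : F → ℂ) : ∑ g : Matrix.SpecialLinearGroup (Fin 2) F, Ψ (tr g) =
    (Fintype.card F : ℂ) * ((Fintype.card F : ℂ) - 1) * ∑ τ, Ψ τ +
      (Fintype.card F : ℂ) * ∑ a ∈ Finset.univ.erase (0 : F), Ψ (a + a⁻¹) := by
  have h1 : ∑ g : Matrix.SpecialLinearGroup (Fin 2) F, Ψ (tr g) =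
      ∑ p : {p : F × F × F × F // p.1 * p.2.1 - p.2.2.1 * p.2.2.2 = 1}, Ψ (p.1.1 + p.1.2.1) :=
    Fintype.sum_equiv slEquiv _ _ (fun g => rfl)
  rw [h1, ← Finset.sum_subtype (Finset.univ.filter fun p : F × F × F × F =>
    p.1 * p.2.1 - p.2.2.1 * p.2.2.2 = 1) (by simp) (fun p => Ψ (p.1 + p.2.1)), Finset.sum_filter,
    Fintype.sum_prod_type]
  simp only [Fintype.sum_prod_type]
  have h2 : ∀ a d : F, ∑ b : F, ∑ c : F, (if a * d - b * c = 1 then Ψ (a + d) else 0) =
      ((Fintype.card F : ℂ) - 1) * Ψ (a + d) +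
        if a * d = 1 then (Fintype.card F : ℂ) * Ψ (a + d) else 0 := by
    intro a d
    have h3 : ∀ b c : F, (if a * d - b * c = 1 then Ψ (a + d) else 0) =
        (if b * c = a * d - 1 then Ψ (a + d) else 0) := by
      intro b c
      congr 1
      apply propext
      constructor
      · intro h; linear_combination -h
      · intro h; linear_combination -h
    simp only [h3]
    rw [sum_bc]
    congr 2
    rw [sub_eq_zero]
  simp only [h2, Finset.sum_add_distrib]
  congr 1
  · rw [mul_assoc, Finset.mul_sum, Finset.mul_sum]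
    have h4 : ∀ a : F, ∑ d : F, ((Fintype.card F : ℂ) - 1) * Ψ (a + d) =
        ∑ τ : F, ((Fintype.card F : ℂ) - 1) * Ψ τ := fun a =>
      Fintype.sum_equiv (Equiv.addLeft a) _ _ (fun d => rfl)
    rw [Finset.sum_congr rfl fun a _ => h4 a]
    simp [Finset.mul_sum]
  · rw [← Finset.add_sum_erase Finset.univ _ (Finset.mem_univ (0 : F))]
    simp only [zero_mul, zero_ne_one, if_false, Finset.sum_const_zero, zero_add]
    rw [Finset.mul_sum]
    refine Finset.sum_congr rfl fun a ha => ?_
    have ha0 : a ≠ 0 := Finset.ne_of_mem_erase ha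
    rw [Finset.sum_eq_single a⁻¹]
    · rw [if_pos (mul_inv_cancel₀ ha0)]
    · intro d _ hd
      rw [if_neg]
      intro h
      exact hd (eq_inv_of_mul_eq_one_right h)
    · intro h
      exact absurd (Finset.mem_univ _) h

lemma card_sl : (Nat.card (Matrix.SpecialLinearGroup (Fin 2) F) : ℂ) =
    (Fintype.card F : ℂ) * ((Fintype.card F : ℂ) - 1) * ((Fintype.card F : ℂ) + 1) := by
  have h := sum_tr (F := F) (fun _ => 1)
  have hc : 1 ≤ Fintype.card F := Fintype.card_pos
  simp at h
  rw [Nat.cast_sub hc] at h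
  rw [Nat.card_eq_fintype_card]
  push_cast at h ⊢
  rw [h]
  ring

end Pool.Agent.TH6.UT
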