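import Pool.Agent.TH6.UT.Rep

/-!
# Conjugacy classes of `SL_2(F)`, `F` finite of characteristic two
-/

set_option linter.unusedSectionVars false

open scoped BigOperators MatrixGroups Classical
open Polynomial

noncomputable section

namespace Pool.Agent.TH6.UT

variable {F : Type} [Field F] [Fintype F] [CharP F 2]

local instance : Fact (Nat.Prime 2) := ⟨Nat.prime_two⟩

omit [Fintype F] in
lemma neg_eq2 (x : F) : -x = x := CharTwo.neg_eq x

lemma exists_sqrt (x : F) : ∃ y : F, y ^ 2 = x := by
  obtain ⟨y, hy⟩ := (frobeniusEquiv F 2).surjective x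
  exact ⟨y, hy⟩

/-- trace of an element of `SL_2(F)` -/
def tr (g : Matrix.SpecialLinearGroup (Fin 2) F) : F := g.1 0 0 + g.1 1 1

/-- companion matrix of trace `τ` -/
def cc (τ : F) : Matrix.SpecialLinearGroup (Fin 2) F :=
  ⟨!![0, 1; 1, τ], by rw [Matrix.det_fin_two_of]; simp [neg_eq2]⟩

omit [Fintype F] in
lemma tr_cc (τ : F) : tr (cc τ) = τ := by simp [tr, cc]

omit [Fintype F] in
lemma tr_one : tr (1 : Matrix.SpecialLinearGroup (Fin 2) F) = 0 := by
  simp [tr]
  exact CharTwo.add_self_eq_zero 1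

omit [Fintype F] in
lemma tr_inv (g : Matrix.SpecialLinearGroup (Fin 2) F) : tr g⁻¹ = tr g := by
  unfold tr
  rw [Matrix.SpecialLinearGroup.SL2_inv_expl]
  simp [add_comm]

omit [Fintype F] [CharP F 2] in
lemma tr_conj (g h : Matrix.SpecialLinearGroup (Fin 2) F) : tr (h * g * h⁻¹) = tr g := by
  have h1 : ∀ x : Matrix.SpecialLinearGroup (Fin 2) F, tr x = (x.1).trace := by
    intro x
    rw [Matrix.trace_fin_two]
    rfl
  have h2 : (h * g * h⁻¹).1 = h.1 * g.1 * (h⁻¹).1 := rfl
  rw [h1, h1, h2, Matrix.trace_mul_comm, ← mul_assoc]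
  have h3 : (h⁻¹).1 * h.1 = 1 := by
    have := congrArg Subtype.val (inv_mul_cancel h)
    exact this
  rw [h3, one_mul]

/-- every nontrivial element is conjugate to the companion matrix with the same trace -/
lemma conj_cc {g : Matrix.SpecialLinearGroup (Fin 2) F} (hg : g ≠ 1) : IsConj (cc (tr g)) g := by
  have hdet : g.1 0 0 * g.1 1 1 - g.1 0 1 * g.1 1 0 = 1 := by
    rw [← Matrix.det_fin_two]; exact g.2
  set a := g.1 0 0 with ha
  set b := g.1 0 1 with hb
  set c := g.1 1 0 with hc
  set d := g.1 1 1 with hd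
  have htr : tr g = a + d := rfl
  have hg1 : g.1 = !![a, b; c, d] := by
    ext i j
    fin_cases i <;> fin_cases j <;> rfl
  -- a matrix with columns v, g v, of determinant one
  suffices h : ∃ x y : F, x * (c * x + d * y) - y * (a * x + b * y) ≠ 0 by
    obtain ⟨x0, y0, hxy⟩ := h
    obtain ⟨s, hs⟩ := exists_sqrt (x0 * (c * x0 + d * y0) - y0 * (a * x0 + b * y0))⁻¹
    set x := s * x0 with hx
    set y := s * y0 with hy
    have hdet1 : x * (c * x + d * y) - (a * x + b * y) * y = 1 := by
      have : x * (c * x + d * y) - (a * x + b * y) * y =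
        s ^ 2 * (x0 * (c * x0 + d * y0) - y0 * (a * x0 + b * y0)) := by
        rw [hx, hy]; ring
      rw [this, hs, inv_mul_cancel₀ hxy]
    let P : Matrix.SpecialLinearGroup (Fin 2) F :=
      ⟨!![x, a * x + b * y; y, c * x + d * y], by rw [Matrix.det_fin_two_of]; exact hdet1⟩
    have hP : g * P = P * cc (tr g) := by
      apply Subtype.ext
      show g.1 * !![x, a * x + b * y; y, c * x + d * y] =
        !![x, a * x + b * y; y, c * x + d * y] * !![0, 1; 1, tr g]
      rw [hg1, htr, Matrix.mul_fin_two, Matrix.mul_fin_two]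
      have e1 : a * (a * x + b * y) + b * (c * x + d * y) = x * 1 + (a * x + b * y) * (a + d) := by
        have h2 : (2 : F) = 0 := CharTwo.two_eq_zero
        linear_combination (-x) * hdet + (- x * (1:F)) * h2
      have e2 : c * (a * x + b * y) + d * (c * x + d * y) = y * 1 + (c * x + d * y) * (a + d) := by
        have h2 : (2 : F) = 0 := CharTwo.two_eq_zero
        linear_combination (-y) * hdet + (- y * (1:F)) * h2
      rw [e1, e2]
      ext i j
      fin_cases i <;> fin_cases j <;> simp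
    rw [isConj_iff]
    exact ⟨P, by rw [← hP]; group⟩
  by_cases hc0 : c ≠ 0
  · exact ⟨1, 0, by simpa using hc0⟩
  by_cases hb0 : b ≠ 0
  · exact ⟨0, 1, by simpa using hb0⟩
  push Not at hc0 hb0
  refine ⟨1, 1, ?_⟩
  rw [hc0, hb0]
  intro h
  have hda : d = a := by
    have : d - a = 0 := by linear_combination h
    exact sub_eq_zero.1 this
  rw [hc0, hb0, hda] at hdet
  have h2 : (a - 1) ^ 2 = 0 := by
    have h2 : (2 : F) = 0 := CharTwo.two_eq_zero
    linear_combination hdet + (1 - a) * h2
  have h3 : a = 1 := sub_eq_zero.1 (pow_eq_zero_iff (two_ne_zero) |>.1 h2)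
  apply hg
  apply Subtype.ext
  rw [hg1, hc0, hb0, hda, h3]
  ext i j
  fin_cases i <;> fin_cases j <;> simp

omit [Fintype F] in
lemma cc_sq : (cc (0 : F)) * cc 0 = 1 := by
  apply Subtype.ext
  show !![(0 : F), 1; 1, 0] * !![0, 1; 1, 0] = 1
  rw [Matrix.mul_fin_two]
  ext i j
  fin_cases i <;> fin_cases j <;> simp

end Pool.Agent.TH6.UT
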