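import Pool.Agent.TH6.UT.Tor2

/-!
# The norm identity
-/

set_option linter.unusedSectionVars false

open scoped BigOperators MatrixGroups Classical
open Polynomial

noncomputable section

namespace Pool.Agent.TH6.UT

lemma trace_involution {G V : Type} [Group G] [AddCommGroup V] [Module ℂ V]
    [FiniteDimensional ℂ V] (ρ : Representation ℂ G V) {u : G} (hu : u * u = 1) :
    ∃ x : ℤ, ρ.character u = x := by
  have h1 : ρ u * ρ u = 1 := by rw [← map_mul, hu, map_one]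
  set p : V →ₗ[ℂ] V := (2 : ℂ)⁻¹ • (1 + ρ u) with hp
  have hidem : IsIdempotentElem p := by
    unfold IsIdempotentElem
    rw [hp, smul_mul_smul_comm]
    have : (1 + ρ u) * (1 + ρ u) = (2 : ℂ) • (1 + ρ u) := by
      rw [two_smul]
      simp only [add_mul, mul_add, one_mul, mul_one, h1]
      abel
    rw [this, smul_smul]
    norm_num
  have h2 := ((LinearMap.isProj_range_iff_isIdempotentElem p).2 hidem).trace
  rw [hp, map_smul, map_add, LinearMap.trace_one] at h2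
  refine ⟨2 * (Module.finrank ℂ (LinearMap.range p) : ℤ) - Module.finrank ℂ V, ?_⟩
  have h3 : ρ.character u = LinearMap.trace ℂ V (ρ u) := rfl
  rw [h3]
  push_cast
  rw [hp, ← h2, smul_eq_mul]
  ring

lemma irr_norm {G : Type} [Group G] [Fintype G] {χ : G → ℂ} (h : IsIrr χ) :
    ∑ g : G, χ g * χ g⁻¹ = (Nat.card G : ℂ) := by
  obtain ⟨V, _, _, _, ρ, hρ, rfl⟩ := h
  have hne : (Nat.card G : ℂ) ≠ 0 := by
    rw [Nat.cast_ne_zero]
    exact Nat.card_pos.ne'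
  have : Invertible (Nat.card G : ℂ) := invertibleOfNonzero hne
  have h1 := Representation.char_orthonormal ρ ρ
  rw [if_pos ⟨Representation.Equiv.refl ρ⟩] at h1
  field_simp at h1
  exact h1

/-- exponents of the constituents -/
def ex (I : Finset ℕ) (a : ℕ) : (I → Fin 2) ⊕ Fin a → ℤ := Sum.elim (E I) (fun _ => 0)

lemma sum_ex (I : Finset ℕ) (a : ℕ) (Z : ℂ) :
    ∑ x, Z ^ ex I a x = ∑ b, Z ^ E I b + a := by
  rw [Fintype.sum_sum_type]
  simp [ex]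

variable {O : ValuationSubring ℂ} {F : Type} [Field F] [Fintype F] [CharP F 2]

lemma sum_erase {m : ℕ} (hm : m ≠ 0) (I : Finset ℕ) (a : ℕ) :
    ∑ Z ∈ (mu m).erase 1, (∑ x, Z ^ ex I a x) ^ 2 =
      (m : ℂ) * cnt (ex I a) m - ((2 : ℂ) ^ I.card + a) ^ 2 := by
  have h1 : (1 : ℂ) ∈ mu m := by rw [mem_mu hm, one_pow]
  have h2 := Finset.add_sum_erase (mu m) (fun Z => (∑ x, Z ^ ex I a x) ^ 2) h1
  rw [sum_sq hm] at h2
  have h3 : (∑ x, (1 : ℂ) ^ ex I a x) = (2 : ℂ) ^ I.card + a := by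
    rw [sum_ex]
    simp
  rw [h3] at h2
  rw [← h2]
  ring

/-- **The norm identity.** -/
theorem identity {n : ℕ} (hn : 1 ≤ n) (hF : Fintype.card F = 2 ^ n)
    (hO : ((2 : ℕ) : ℂ) ∈ O.nonunits) (ι : F →+* Res O) {I : Finset ℕ} {a : ℕ}
    {χ : Matrix.SpecialLinearGroup (Fin 2) F → ℂ} (hχ : IsIrr χ)
    (h1 : χ 1 = a + brauer 2 O (@rep F (Res O) _ _ (charP_res Nat.prime_two hO) ι I) 1)
    (hτ : ∀ τ : F, τ ≠ 0 →
      χ (cc τ) = a + brauer 2 O (@rep F (Res O) _ _ (charP_res Nat.prime_two hO) ι I) (cc τ)) :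
    ∃ x : ℤ, χ (cc 0) = x ∧
      (2 : ℤ) ^ n * (cnt (ex I a) (2 ^ n - 1) + cnt (ex I a) (2 ^ n + 1)) + 2 * x ^ 2 =
        2 * 2 ^ n + 2 * (2 ^ I.card + a) ^ 2 := by
  have hch := charP_res Nat.prime_two hO
  have hac := isAlgClosed_res (O := O)
  have hconj : ∀ g, g ≠ 1 → χ g = χ (cc (tr g)) := by
    intro g hg
    obtain ⟨V, _, _, _, ρ, hρ, rfl⟩ := hχ
    obtain ⟨x, hx⟩ := isConj_iff.1 (conj_cc hg)
    conv_lhs => rw [← hx]
    rw [Representation.char_conj]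
  have hinv : ∀ g, χ g⁻¹ = χ g := by
    intro g
    by_cases hg : g = 1
    · rw [hg, inv_one]
    · rw [hconj g hg, hconj g⁻¹ (by simpa using hg), tr_inv]
  obtain ⟨x, hx⟩ : ∃ x : ℤ, χ (cc 0) = x := by
    obtain ⟨V, _, _, _, ρ, hρ, rfl⟩ := hχ
    exact trace_involution ρ cc_sq
  refine ⟨x, hx, ?_⟩
  have hnorm := irr_norm hχ
  rw [card_sl, hF] at hnorm
  set h : F → ℂ := fun τ => χ (cc τ) ^ 2 with hh
  set N : ℂ := (2 : ℂ) ^ I.card + a with hN
  have hχ1 : χ 1 = N := by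
    rw [h1, brauer_one hO ι I, hN, add_comm]
  -- sum over the group
  have e1 : ∑ g, χ g * χ g⁻¹ = N ^ 2 - h 0 + ∑ g : Matrix.SpecialLinearGroup (Fin 2) F, h (tr g) := by
    rw [← Finset.add_sum_erase Finset.univ _
      (Finset.mem_univ (1 : Matrix.SpecialLinearGroup (Fin 2) F)),
      ← Finset.add_sum_erase Finset.univ (fun g => h (tr g))
      (Finset.mem_univ (1 : Matrix.SpecialLinearGroup (Fin 2) F)), hinv, hχ1, tr_one]
    have e2 : ∑ g ∈ Finset.univ.erase (1 : Matrix.SpecialLinearGroup (Fin 2) F), χ g * χ g⁻¹ =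
        ∑ g ∈ Finset.univ.erase (1 : Matrix.SpecialLinearGroup (Fin 2) F), h (tr g) := by
      refine Finset.sum_congr rfl fun g hg => ?_
      rw [hinv, hconj g (Finset.ne_of_mem_erase hg), hh]
      ring
    rw [e2]
    ring
  have hcorr : Corr n ι h (fun Z => (∑ x, Z ^ ex I a x) ^ 2) := by
    intro τ hτ0 z m hm hz hx
    show χ (cc τ) ^ 2 = (∑ x, (z : ℂ) ^ ex I a x) ^ 2
    rw [sum_ex, hτ τ hτ0, (brauer_cc hO ι hτ0 (odd_m hn hm) hz hx I).2]
    ring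
  have c1 := claim1 hn hF hO ι hcorr
  have c2 := claim2 hn hF hO ι hcorr
  have hm1 : 2 ^ n - 1 ≠ 0 := fun h0 => odd_m hn (Or.inl rfl) (h0 ▸ dvd_zero 2)
  have hm2 : 2 ^ n + 1 ≠ 0 := by omega
  rw [sum_erase hm1, ← hN] at c1
  rw [sum_erase hm1, sum_erase hm2, ← hN] at c2
  rw [e1, sum_tr, c1, ← Finset.add_sum_erase Finset.univ h (Finset.mem_univ (0 : F)), hF] at hnorm
  have hpos : 1 ≤ 2 ^ n := Nat.one_le_two_pow
  set Q : ℂ := (2 : ℂ) ^ n with hQ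
  have hcast1 : (((2 ^ n - 1 : ℕ)) : ℂ) = Q - 1 := by
    rw [Nat.cast_sub hpos, hQ]; push_cast; ring
  have hcast2 : (((2 ^ n + 1 : ℕ)) : ℂ) = Q + 1 := by
    rw [hQ]; push_cast; ring
  have hcast3 : (((2 ^ n : ℕ)) : ℂ) = Q := by
    rw [hQ]; push_cast; ring
  rw [hcast1, hcast2] at c2
  rw [hcast1, hcast3] at hnorm
  set A := cnt (ex I a) (2 ^ n - 1) with hA
  set B := cnt (ex I a) (2 ^ n + 1) with hB
  have hh0 : h 0 = (x : ℂ) ^ 2 := by rw [hh]; simp only; rw [hx]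
  rw [hh0] at hnorm
  have hfin : (Q ^ 2 - 1) * (Q * (A + B) + 2 * (x : ℂ) ^ 2 - 2 * Q - 2 * N ^ 2) = 0 := by
    linear_combination 2 * hnorm - Q * (Q - 1) * c2
  have hQ1 : Q ^ 2 - 1 ≠ 0 := by
    intro h0
    have h3 : ((2 ^ n : ℕ) : ℂ) ^ 2 = 1 := by rw [hcast3]; linear_combination h0
    have h4 : (2 ^ n) ^ 2 = 1 := by exact_mod_cast h3
    have h5 : 2 ≤ 2 ^ n := by
      calc 2 = 2 ^ 1 := by norm_num
        _ ≤ 2 ^ n := Nat.pow_le_pow_right (by norm_num) hn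
    nlinarith
  have h6 := (mul_eq_zero.1 hfin).resolve_left hQ1
  have h7 : (Q * (A + B) + 2 * (x : ℂ) ^ 2) = 2 * Q + 2 * N ^ 2 := by linear_combination h6
  rw [hN, hQ] at h7
  exact_mod_cast h7

end Pool.Agent.TH6.UT
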