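import Mathlib

/-!
# Blocks, Brauer characters and unitriangular decomposition matrices

`l` is a prime and `O` is a valuation subring of `ℂ` whose maximal ideal `O.nonunits` contains `l`;
`Res O` is its residue field (an algebraically closed field of characteristic `l`), and
`(ℂ, O, Res O)` is the `l`-modular system.
-/

open scoped BigOperators Classical

noncomputable section

namespace Pool.Agent.TH6.UT

/-- the residue field of `O` -/
abbrev Res (O : ValuationSubring ℂ) : Type := IsLocalRing.ResidueField O

/-- `χ` is the character of an irreducible complex representation of `G`. -/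
def IsIrr {G : Type} [Group G] (χ : G → ℂ) : Prop :=
  ∃ (V : Type) (_ : AddCommGroup V) (_ : Module ℂ V) (_ : FiniteDimensional ℂ V)
    (ρ : Representation ℂ G V), ρ.IsIrreducible ∧ χ = ρ.character

/-- The lift of `x : Res O` to `ℂ`: the root of unity of order prime to `l` in `O` that reduces
to `x` (and `0` if there is none). -/
def lift (l : ℕ) (O : ValuationSubring ℂ) (x : Res O) : ℂ :=
  if h : ∃ z : O, IsLocalRing.residue O z = x ∧ ∃ n : ℕ, ¬ l ∣ n ∧ (z : ℂ) ^ n = 1 then
    ((h.choose : O) : ℂ) else 0

/-- The Brauer character of a representation `ρ` over `Res O`: at an `l`-regular element `g` it is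
the sum of the lifts of the eigenvalues of `ρ g`, counted with multiplicity. (It is only defined on
`l`-regular elements; we put the value `0` elsewhere.) -/
def brauer (l : ℕ) (O : ValuationSubring ℂ) {G : Type} [Group G] {V : Type} [AddCommGroup V]
    [Module (Res O) V] [FiniteDimensional (Res O) V] (ρ : Representation (Res O) G V) (g : G) : ℂ :=
  if l ∣ orderOf g then 0 else ((LinearMap.charpoly (ρ g)).roots.map (lift l O)).sum

variable {G : Type} [Group G] [Fintype G]

/-- The sum in the group algebra of the elements conjugate to `x`. -/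
def classSum (k : Type) [Field k] (x : G) : MonoidAlgebra k G :=
  ∑ y : G, if IsConj x y then MonoidAlgebra.of k G y else 0

omit [Fintype G] in
lemma comm_of_single (k : Type) [Field k] (z : MonoidAlgebra k G)
    (h : ∀ g : G, MonoidAlgebra.of k G g * z = z * MonoidAlgebra.of k G g) :
    z ∈ Subalgebra.center k (MonoidAlgebra k G) := by
  rw [Subalgebra.mem_center_iff]
  intro b
  induction b using MonoidAlgebra.induction_on with
  | of g => exact h g
  | add a b ha hb => rw [add_mul, mul_add, ha, hb]
  | smul r a ha => rw [smul_mul_assoc, mul_smul_comm, ha]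

lemma classSum_mem (k : Type) [Field k] (x : G) :
    classSum k x ∈ Subalgebra.center k (MonoidAlgebra k G) := by
  apply comm_of_single
  intro g
  unfold classSum
  rw [Finset.mul_sum, Finset.sum_mul]
  have key : ∀ y : G, MonoidAlgebra.of k G g * (if IsConj x y then MonoidAlgebra.of k G y else 0) =
      (if IsConj x (g * y * g⁻¹) then MonoidAlgebra.of k G (g * y * g⁻¹) else 0) *
        MonoidAlgebra.of k G g := by
    intro y
    have h1 : IsConj x (g * y * g⁻¹) ↔ IsConj x y := by
      constructor
      · intro h
        exact h.trans (isConj_iff.2 ⟨g⁻¹, by group⟩)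
      · intro h
        exact h.trans (isConj_iff.2 ⟨g, rfl⟩)
    by_cases hxy : IsConj x y
    · rw [if_pos hxy, if_pos (h1.2 hxy), ← map_mul, ← map_mul]
      congr 1
      group
    · rw [if_neg hxy, if_neg (fun h => hxy (h1.1 h))]
      simp
  exact Fintype.sum_equiv (MulAut.conj g).toEquiv _ _ key

/-- An `l`-block of `G`, given by its central character: an algebra homomorphism from the centre of
the group algebra over `Res O` to `Res O`. -/
abbrev Block (O : ValuationSubring ℂ) (G : Type) [Group G] : Type :=
  Subalgebra.center (Res O) (MonoidAlgebra (Res O) G) →ₐ[Res O] Res O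

/-- `ω_χ(K⁺) = |K| χ(x) / χ(1)`, where `K` is the conjugacy class of `x`. -/
def omega (χ : G → ℂ) (x : G) : ℂ := (Nat.card {y : G // IsConj x y} : ℂ) * χ x / χ 1

/-- `Irr(B)`: the irreducible characters `χ` for which the reduction of `ω_χ` is the central
character of the block `B`. -/
def IrrB {O : ValuationSubring ℂ} (B : Block O G) : Set (G → ℂ) :=
  {χ | IsIrr χ ∧ ∀ x : G, ∃ w : O, (w : ℂ) = omega χ x ∧
    IsLocalRing.residue O w = B ⟨classSum (Res O) x, classSum_mem (Res O) x⟩}

/-- `IBr(B)`: the Brauer characters of the irreducible representations over `Res O` on which the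
centre of the group algebra acts through the central character of the block `B`. -/
def IBrB (l : ℕ) {O : ValuationSubring ℂ} (B : Block O G) : Set (G → ℂ) :=
  {φ | ∃ (V : Type) (_ : AddCommGroup V) (_ : Module (Res O) V) (_ : FiniteDimensional (Res O) V)
    (ρ : Representation (Res O) G V), ρ.IsIrreducible ∧
      (∀ z : Subalgebra.center (Res O) (MonoidAlgebra (Res O) G),
        ρ.asAlgebraHom z = B z • LinearMap.id) ∧ φ = brauer l O ρ}

/-- The decomposition matrix of the block `B` is unitriangular: there are pairwise distinct
`χ_1, …, χ_n ∈ Irr(B)` and an enumeration `φ_1, …, φ_n` of `IBr(B)` with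
`χ_i = ∑_j d_{ij} φ_j` on `l`-regular elements, `d_{ij}` nonnegative integers, `d_{ii} = 1` and
`d_{ij} = 0` for `j > i`. -/
def Unitriangular (l : ℕ) {O : ValuationSubring ℂ} (B : Block O G) : Prop :=
  ∃ (n : ℕ) (χ φ : Fin n → G → ℂ) (d : Fin n → Fin n → ℕ),
    Function.Injective χ ∧ (∀ i, χ i ∈ IrrB B) ∧
    Function.Injective φ ∧ Set.range φ = IBrB l B ∧
    (∀ i, ∀ g : G, ¬ l ∣ orderOf g → χ i g = ∑ j, (d i j : ℂ) * φ j g) ∧
    (∀ i, d i i = 1) ∧ ∀ i j, i < j → d i j = 0

/-- The principal block: its central character is the restriction of the augmentation map. -/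
def IsPrincipal {O : ValuationSubring ℂ} (B : Block O G) : Prop :=
  ∀ z : Subalgebra.center (Res O) (MonoidAlgebra (Res O) G), 
    B z = ∑ g : G, (z : MonoidAlgebra (Res O) G).coeff g

end Pool.Agent.TH6.UT
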