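import Pool.Agent.TH6.UT.Blk2

/-!
# The principal `2`-block of `SL_2(2^n)`, `n ≥ 3`, is not unitriangular
-/

set_option linter.unusedSectionVars false

open scoped BigOperators MatrixGroups Classical
open Polynomial

noncomputable section

namespace Pool.Agent.TH6.UT

variable {O : ValuationSubring ℂ} {F : Type} [Field F] [Fintype F] [CharP F 2]

lemma exists_hom [CharP (Res O) 2] [IsAlgClosed (Res O)] : Nonempty (F →+* Res O) := by
  let _ : Algebra (ZMod 2) F := ZMod.algebra F 2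
  let _ : Algebra (ZMod 2) (Res O) := ZMod.algebra (Res O) 2
  have : Fact (Nat.Prime 2) := ⟨Nat.prime_two⟩
  have : Module.Finite (ZMod 2) F := Module.Finite.of_finite
  exact ⟨(IsAlgClosed.lift (R := ZMod 2) (S := F) (M := Res O)).toRingHom⟩

/-- every irreducible Brauer character is one of the `φ_I` -/
lemma brauer_classify {n : ℕ} (hF : Fintype.card F = 2 ^ n)
    [CharP (Res O) 2] [IsAlgClosed (Res O)] (ι : F →+* Res O)
    {B : Block O (Matrix.SpecialLinearGroup (Fin 2) F)}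
    {φ : Matrix.SpecialLinearGroup (Fin 2) F → ℂ} (hφ : φ ∈ IBrB 2 B) :
    ∃ I ⊆ Finset.range n, φ = brauer 2 O (rep ι I) := by
  obtain ⟨V, _, _, _, ρ, hρ, -, rfl⟩ := hφ
  obtain ⟨I, hI, ⟨e⟩⟩ := classify hF ι ρ hρ
  exact ⟨I, hI, brauer_congr ρ _ e⟩

theorem not_unitri (hO : ((2 : ℕ) : ℂ) ∈ O.nonunits) {n : ℕ} (hn : 3 ≤ n)
    (hF : Fintype.card F = 2 ^ n) :
    ¬ Unitriangular 2 (B0 O (Matrix.SpecialLinearGroup (Fin 2) F)) := by
  have hch := charP_res Nat.prime_two hO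
  have hac := isAlgClosed_res (O := O)
  obtain ⟨ι⟩ := exists_hom (O := O) (F := F)
  have hF2 : 2 < Fintype.card F := by
    rw [hF]
    calc 2 < 2 ^ 3 := by norm_num
      _ ≤ 2 ^ n := Nat.pow_le_pow_right (by norm_num) hn
  rintro ⟨N, χ, φ, d, -, hχ, hφinj, hrange, hdec, hdiag, htri⟩
  -- a nontrivial Brauer character
  have hirr0 : (rep ι {0}).IsIrreducible := rep_irreducible ι hF (by
    intro i hi
    rw [Finset.mem_singleton] at hi
    rw [hi, Finset.mem_range]
    omega)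
  have hnat : brauer 2 O (rep ι {0}) ∈ IBrB 2 (B0 O (Matrix.SpecialLinearGroup (Fin 2) F)) :=
    ⟨_, _, _, inferInstance, rep ι {0}, hirr0, fun z => nat_in_block hF2 ι hirr0 z, rfl⟩
  have hnat_ne : brauer 2 O (rep ι {0}) ≠ brauer 2 O (rep ι ∅) := by
    intro h
    have h1 := congrFun h 1
    rw [brauer_one hO ι, brauer_one hO ι] at h1
    norm_num at h1
  -- the least index with a nontrivial Brauer character
  have hex : ∃ k : ℕ, ∃ hk : k < N, φ ⟨k, hk⟩ ≠ brauer 2 O (rep ι ∅) := by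
    rw [← hrange] at hnat
    obtain ⟨i, hi⟩ := hnat
    exact ⟨i, i.2, by rw [hi]; exact hnat_ne⟩
  obtain ⟨hk, hne⟩ := Nat.find_spec hex
  set k := Nat.find hex with hkdef
  have hmin : ∀ j : Fin N, (j : ℕ) < k → φ j = brauer 2 O (rep ι ∅) := by
    intro j hj
    by_contra hcon
    exact Nat.find_min hex hj ⟨j.2, hcon⟩
  set i : Fin N := ⟨k, hk⟩ with hi
  obtain ⟨I, hI, hφI⟩ := brauer_classify hF ι (B := B0 O _) (φ := φ i) (by
    rw [← hrange]; exact ⟨i, rfl⟩)
  have hI0 : I.Nonempty := by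
    rw [Finset.nonempty_iff_ne_empty]
    intro h
    apply hne
    rw [hφI, h]
  set a : ℕ := ∑ j ∈ Finset.univ.filter (fun j : Fin N => j < i), d i j with ha
  -- value of χ i
  have hval : ∀ g : Matrix.SpecialLinearGroup (Fin 2) F, ¬ 2 ∣ orderOf g →
      brauer 2 O (rep ι ∅) g = 1 → χ i g = a + brauer 2 O (rep ι I) g := by
    intro g hg h1
    rw [hdec i g hg, ← Finset.sum_filter_add_sum_filter_not Finset.univ (fun j : Fin N => j < i)]
    congr 1
    · rw [ha]
      push_cast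
      refine Finset.sum_congr rfl fun j hj => ?_
      rw [Finset.mem_filter] at hj
      rw [hmin j hj.2, h1, mul_one]
    · rw [Finset.sum_eq_single i]
      · rw [hdiag, hφI]; simp
      · intro j hj hji
        rw [Finset.mem_filter] at hj
        rw [htri i j (lt_of_le_of_ne (not_lt.1 hj.2) (Ne.symm hji))]
        simp
      · intro h
        exact absurd (Finset.mem_filter.2 ⟨Finset.mem_univ i, lt_irrefl i⟩) h
  have h1 : χ i 1 = a + brauer 2 O (rep ι I) 1 := by
    apply hval 1 (by simp)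
    rw [brauer_one hO ι]
    simp
  have hτ : ∀ τ : F, τ ≠ 0 → χ i (cc τ) = a + brauer 2 O (rep ι I) (cc τ) := by
    intro τ hτ0
    obtain ⟨x, hx⟩ := root_exists (ι τ)
    obtain ⟨hx0, hx1⟩ := root_ne hτ0 ι hx
    obtain ⟨m, hm, hxm⟩ : ∃ m, (m = 2 ^ n - 1 ∨ m = 2 ^ n + 1) ∧ x ^ m = 1 := by
      rcases root_pow hF ι hx0 hx with h1 | h1
      · exact ⟨_, Or.inl rfl, h1⟩
      · exact ⟨_, Or.inr rfl, h1⟩
    have hodd := odd_m (by omega) hm
    obtain ⟨z, hz1, hz2, -⟩ := lift_spec hO hodd hxm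
    obtain ⟨h3, h4⟩ := brauer_cc hO ι hτ0 hodd hz1 (by rw [hz2]; exact hx) ∅
    apply hval _ h3
    rw [h4]
    simp [E]
  have hirr := (hχ i).1
  have hzero := main_step hn hF hO ι hI hI0 hirr h1 hτ
  obtain ⟨w, hw1, hw2⟩ := (hχ i).2 (cc 0)
  have hw0 : (w : ℂ) = 0 := by
    rw [hw1, omega, hzero, mul_zero, zero_div]
  have hw : w = 0 := Subtype.ext (by simpa using hw0)
  rw [hw, map_zero] at hw2
  exact B0_invol (by omega) hF hw2.symm

end Pool.Agent.TH6.UT
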