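import Pool.Agent.TH6.UT.Ten

/-!
# The modules `V_I` for `SL_2(2^n)` and their irreducibility
-/

open scoped BigOperators MatrixGroups Classical
open Polynomial

noncomputable section

namespace Pool.Agent.TH6.UT

variable {F K : Type} [Field F] [Field K]

/-- the matrix of `g` over `K` -/
def mk (ι : F →+* K) (g : Matrix.SpecialLinearGroup (Fin 2) F) : Matrix (Fin 2) (Fin 2) K :=
  (g : Matrix (Fin 2) (Fin 2) F).map ι

lemma mk_apply (ι : F →+* K) (g : Matrix.SpecialLinearGroup (Fin 2) F) (i j : Fin 2) :
    mk ι g i j = ι (g.1 i j) := rfl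

lemma mk_one (ι : F →+* K) : mk ι 1 = 1 := by
  unfold mk
  simp

lemma mk_mul (ι : F →+* K) (g h : Matrix.SpecialLinearGroup (Fin 2) F) :
    mk ι (g * h) = mk ι g * mk ι h := by
  unfold mk
  simp [Matrix.map_mul]

/-- the module `V_I` -/
def rep [CharP K 2] (ι : F →+* K) (I : Finset ℕ) :
    Representation K (Matrix.SpecialLinearGroup (Fin 2) F) ((I → Fin 2) → K) where
  toFun g := Matrix.toLin' (ten I (mk ι g))
  map_one' := by rw [mk_one, ten_one, Matrix.toLin'_one]; rfl
  map_mul' g h := by rw [mk_mul, ten_mul, Matrix.toLin'_mul]; rfl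

lemma rep_apply [CharP K 2] (ι : F →+* K) (I : Finset ℕ)
    (g : Matrix.SpecialLinearGroup (Fin 2) F) (w : (I → Fin 2) → K) (a : I → Fin 2) :
    rep ι I g w a = ∑ b, ten I (mk ι g) a b * w b := rfl

/-- upper unipotent elements -/
def uu (t : F) : Matrix.SpecialLinearGroup (Fin 2) F := ⟨!![1, t; 0, 1], by simp [Matrix.det_fin_two]⟩

/-- lower unipotent elements -/
def vv (t : F) : Matrix.SpecialLinearGroup (Fin 2) F := ⟨!![1, 0; t, 1], by simp [Matrix.det_fin_two]⟩

lemma ten_uu (ι : F →+* K) (I : Finset ℕ) (t : F) (b : I → Fin 2) :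
    ten I (mk ι (uu t)) (fun _ => 0) b = ι t ^ wt I b := by
  rw [ten_apply, wt, ← Finset.prod_pow_eq_pow_sum]
  refine Finset.prod_congr rfl fun i _ => ?_
  rw [mk_apply]
  have hb : b i = 0 ∨ b i = 1 := by omega
  rcases hb with h | h <;> rw [h] <;> simp [uu]

lemma ten_vv (ι : F →+* K) (I : Finset ℕ) (t : F) (a c : I → Fin 2) :
    ten I (mk ι (vv t)) a c = if c ≤ a then ι t ^ (wt I a - wt I c) else 0 := by
  rw [ten_apply]
  by_cases h : c ≤ a
  · rw [if_pos h]
    have h1 : wt I a - wt I c = ∑ i : I, ((a i : ℕ) - (c i : ℕ)) * 2 ^ (i : ℕ) := by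
      unfold wt
      rw [← Finset.sum_tsub_distrib]
      · refine Finset.sum_congr rfl fun i _ => ?_
        rw [Nat.sub_mul]
      · intro i _
        exact Nat.mul_le_mul_right _ (h i)
    rw [h1, ← Finset.prod_pow_eq_pow_sum]
    refine Finset.prod_congr rfl fun i _ => ?_
    rw [mk_apply]
    have hi := h i
    have ha : a i = 0 ∨ a i = 1 := by omega
    have hc : c i = 0 ∨ c i = 1 := by omega
    rcases ha with ha | ha <;> rcases hc with hc | hc <;> rw [ha, hc] at hi ⊢ <;>
      simp [vv] at hi ⊢
  · rw [if_neg h]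
    rw [Pi.le_def, not_forall] at h
    obtain ⟨i, hi⟩ := h
    have ha : a i = 0 := by omega
    have hc : c i = 1 := by omega
    refine Finset.prod_eq_zero (Finset.mem_univ i) ?_
    rw [mk_apply, ha, hc]
    simp [vv]

/-- a combination of powers with exponents below `|F|` vanishing at all points of `F` is trivial -/
lemma coeff_of_eval [Fintype F] (ι : F →+* K) {J : Type} [Fintype J] (e : J → ℕ) (w : J → K)
    (he : ∀ j, w j ≠ 0 → e j < Fintype.card F) (h : ∀ t : F, ∑ j, w j * ι t ^ e j = 0) (k : ℕ) :
    ∑ j, (if e j = k then w j else 0) = 0 := by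
  set P : K[X] := ∑ j, C (w j) * X ^ e j with hP
  have h1 : ∀ t : F, P.eval (ι t) = 0 := by
    intro t
    rw [hP, eval_finsetSum]
    simpa using h t
  have h2 : P = 0 := by
    refine Polynomial.eq_zero_of_natDegree_lt_card_of_eval_eq_zero P ι.injective h1 ?_
    by_cases hP0 : P = 0
    · rw [hP0]; simp [Fintype.card_pos]
    rw [Polynomial.natDegree_lt_iff_degree_lt hP0, hP]
    refine (Polynomial.degree_sum_le _ _).trans_lt ?_
    rw [Finset.sup_lt_iff]
    · intro j _
      by_cases hj : w j = 0
      · simp [hj]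
      · refine (degree_C_mul_X_pow_le _ _).trans_lt ?_
        exact_mod_cast he j hj
    · exact WithBot.bot_lt_coe _
  have h3 : P.coeff k = 0 := by rw [h2]; simp
  rw [hP, finsetSum_coeff] at h3
  simp only [coeff_C_mul, coeff_X_pow, mul_ite, mul_one, mul_zero] at h3
  have h4 : ∀ j, (if e j = k then w j else 0) = (if k = e j then w j else 0) := by
    intro j
    by_cases hj : e j = k
    · rw [if_pos hj, if_pos hj.symm]
    · rw [if_neg hj, if_neg (Ne.symm hj)]
  rw [Finset.sum_congr rfl fun j _ => h4 j]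
  exact h3

/-- criterion for irreducibility -/
lemma irr_criterion {G V : Type} [Group G] [AddCommGroup V] [Module K V] [Nontrivial V]
    (ρ : Representation K G V)
    (h : ∀ (f : V →ₗ[K] K) (w : V), f ≠ 0 → w ≠ 0 → ∃ g, f (ρ g w) ≠ 0) : ρ.IsIrreducible := by
  obtain ⟨v0, hv0⟩ := exists_ne (0 : V)
  have hne : (⊥ : Subrepresentation ρ) ≠ ⊤ := by
    intro h0
    have h1 : v0 ∈ (⊤ : Subrepresentation ρ) := trivial
    rw [← h0] at h1
    exact hv0 h1
  refine { exists_pair_ne := ⟨⊥, ⊤, hne⟩, eq_bot_or_eq_top := fun W => ?_ }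
  by_cases hW : ∃ w ∈ W.toSubmodule, w ≠ 0
  · right
    obtain ⟨w, hw, hw0⟩ := hW
    by_contra hcon
    obtain ⟨v, hv⟩ : ∃ v, v ∉ W.toSubmodule := by
      by_contra hall
      push Not at hall
      apply hcon
      apply Subrepresentation.toSubmodule_injective
      ext v
      exact ⟨fun _ => trivial, fun _ => hall v⟩
    obtain ⟨f, hf, hle⟩ := Submodule.exists_le_ker_of_notMem hv
    obtain ⟨g, hg⟩ := h f w (fun h0 => hf (by rw [h0]; rfl)) hw0
    exact hg (LinearMap.mem_ker.1 (hle (W.apply_mem_toSubmodule g hw)))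
  · left
    push Not at hW
    apply Subrepresentation.toSubmodule_injective
    ext v
    constructor
    · intro hv
      rw [hW v hv]
      exact Submodule.zero_mem _
    · intro hv
      have : v = 0 := hv
      rw [this]
      exact Submodule.zero_mem _

lemma dual_apply {J : Type} [Fintype J] [DecidableEq J] (f : (J → K) →ₗ[K] K) (w : J → K) :
    f w = ∑ j, w j * f (Pi.single j 1) := by
  rw [LinearMap.pi_apply_eq_sum_univ f w]
  refine Finset.sum_congr rfl fun j _ => ?_
  rw [smul_eq_mul]
  congr 2
  funext i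
  rw [Pi.single_apply]
  by_cases h : i = j
  · rw [if_pos h, if_pos h.symm]
  · rw [if_neg h, if_neg (Ne.symm h)]

/-- `V_I` is irreducible -/
theorem rep_irreducible [Fintype F] [CharP K 2] (ι : F →+* K) {n : ℕ}
    (hF : Fintype.card F = 2 ^ n) {I : Finset ℕ} (hI : I ⊆ Finset.range n) :
    (rep ι I).IsIrreducible := by
  apply irr_criterion
  intro f w hf hw
  -- step 1
  obtain ⟨t, ht⟩ : ∃ t : F, rep ι I (uu t) w (fun _ => 0) ≠ 0 := by
    by_contra hcon
    push Not at hcon
    apply hw
    funext b
    have h1 := coeff_of_eval ι (wt I) w (fun j _ => by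
      rw [hF]; exact (wt_le I j).trans_lt (sum_lt hI)) (fun t => by
      refine Eq.trans ?_ (hcon t)
      rw [rep_apply]
      refine Finset.sum_congr rfl fun b _ => ?_
      rw [ten_uu, mul_comm]) (wt I b)
    rw [Finset.sum_eq_single b] at h1
    · simpa using h1
    · intro c _ hc
      rw [if_neg fun h => hc (wt_injective I h)]
    · intro hb
      exact absurd (Finset.mem_univ b) hb
  set w' := rep ι I (uu t) w with hw'
  -- step 2
  obtain ⟨s, hs⟩ : ∃ s : F, f (rep ι I (vv s) w') ≠ 0 := by
    by_contra hcon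
    push Not at hcon
    set S := Finset.univ.filter fun a : I → Fin 2 => f (Pi.single a 1) ≠ 0 with hS
    have hSne : S.Nonempty := by
      by_contra hne
      rw [Finset.not_nonempty_iff_eq_empty] at hne
      apply hf
      ext a
      have : a ∉ S := by rw [hne]; simp
      simpa [hS] using this
    obtain ⟨A, hA, hmax⟩ := S.exists_max_image (wt I) hSne
    have hA' : f (Pi.single A 1) ≠ 0 := by simpa [hS] using hA
    have h1 := coeff_of_eval ι (J := (I → Fin 2) × (I → Fin 2)) (fun p => wt I p.1 - wt I p.2)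
      (fun p => if p.2 ≤ p.1 then f (Pi.single p.1 1) * w' p.2 else 0) (fun j _ => by
      rw [hF]; exact (Nat.sub_le _ _).trans_lt ((wt_le I _).trans_lt (sum_lt hI))) (fun s => by
      refine Eq.trans ?_ (hcon s)
      rw [dual_apply, Fintype.sum_prod_type]
      refine Finset.sum_congr rfl fun a _ => ?_
      rw [rep_apply, Finset.sum_mul]
      refine Finset.sum_congr rfl fun c _ => ?_
      rw [ten_vv]
      by_cases h : c ≤ a
      · simp only [if_pos h]; ring
      · simp only [if_neg h]; ring) (wt I A)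
    rw [Finset.sum_eq_single (A, fun _ => 0)] at h1
    · have h0 : wt I (fun _ => 0) = 0 := by simp [wt]
      simp only [h0, Nat.sub_zero, if_true] at h1
      have hle : (fun _ : I => (0 : Fin 2)) ≤ A := fun i => Fin.zero_le _
      rw [if_pos hle] at h1
      exact (mul_ne_zero hA' ht) h1
    · rintro ⟨a, c⟩ _ hne
      by_cases h2 : wt I a - wt I c = wt I A
      · rw [if_pos h2]
        by_cases h3 : c ≤ a
        · simp only [if_pos h3]
          by_cases h4 : f (Pi.single a 1) = 0
          · rw [h4, zero_mul]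
          · exfalso
            apply hne
            have h5 : wt I a ≤ wt I A := hmax a (by simpa [hS] using h4)
            have h6 : wt I c ≤ wt I a := by
              unfold wt
              exact Finset.sum_le_sum fun i _ => Nat.mul_le_mul_right _ (h3 i)
            have h7 : wt I c = 0 := by omega
            have h8 : wt I a = wt I A := by omega
            have h0 : wt I (fun _ => 0) = 0 := by simp [wt]
            rw [wt_injective I h8, wt_injective I (h7.trans h0.symm)]
        · simp only [if_neg h3]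
      · rw [if_neg h2]
    · intro hb
      exact absurd (Finset.mem_univ _) hb
  refine ⟨vv s * uu t, ?_⟩
  rw [map_mul]
  exact hs

end Pool.Agent.TH6.UT
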