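import Mathlib

/-!
# Tensor products of Frobenius twists of `2 × 2` matrices in characteristic two
-/

open scoped BigOperators
open Polynomial

noncomputable section

namespace Pool.Agent.TH6.UT

variable {R : Type} [CommRing R]

/-- `⊗_{i ∈ I} A^(2^i)` -/
def ten (I : Finset ℕ) (A : Matrix (Fin 2) (Fin 2) R) : Matrix (I → Fin 2) (I → Fin 2) R :=
  Matrix.of fun a b => ∏ i : I, (A (a i) (b i)) ^ (2 ^ (i : ℕ))

lemma ten_apply (I : Finset ℕ) (A : Matrix (Fin 2) (Fin 2) R) (a b : I → Fin 2) :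
    ten I A a b = ∏ i : I, (A (a i) (b i)) ^ (2 ^ (i : ℕ)) := rfl

lemma pow_add2 [CharP R 2] (i : ℕ) (x y : R) : (x + y) ^ (2 ^ i) = x ^ (2 ^ i) + y ^ (2 ^ i) :=
  add_pow_expChar_pow x y 2 i

lemma ten_mul [CharP R 2] (I : Finset ℕ) (A B : Matrix (Fin 2) (Fin 2) R) :
    ten I (A * B) = ten I A * ten I B := by
  classical
  ext a b
  rw [ten_apply, Matrix.mul_apply]
  simp only [Matrix.mul_apply, Fin.sum_univ_two, pow_add2, mul_pow, ten_apply]
  have h : ∀ i : I, A (a i) 0 ^ 2 ^ (i : ℕ) * B 0 (b i) ^ 2 ^ (i : ℕ) +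
      A (a i) 1 ^ 2 ^ (i : ℕ) * B 1 (b i) ^ 2 ^ (i : ℕ) =
      ∑ j : Fin 2, A (a i) j ^ 2 ^ (i : ℕ) * B j (b i) ^ 2 ^ (i : ℕ) := by
    intro i
    rw [Fin.sum_univ_two]
  rw [Finset.prod_congr rfl fun i _ => h i, Finset.prod_univ_sum, Fintype.piFinset_univ]
  refine Finset.sum_congr rfl fun c _ => ?_
  rw [Finset.prod_mul_distrib]

lemma ten_diagonal (I : Finset ℕ) (d : Fin 2 → R) :
    ten I (Matrix.diagonal d) = Matrix.diagonal fun a => ∏ i : I, d (a i) ^ (2 ^ (i : ℕ)) := by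
  classical
  ext a b
  rw [ten_apply]
  by_cases h : a = b
  · subst h
    simp
  · rw [Matrix.diagonal_apply_ne _ h]
    obtain ⟨i, hi⟩ := Function.ne_iff.1 h
    refine Finset.prod_eq_zero (Finset.mem_univ i) ?_
    rw [Matrix.diagonal_apply_ne _ hi, zero_pow (by positivity)]

lemma ten_one (I : Finset ℕ) : ten I (1 : Matrix (Fin 2) (Fin 2) R) = 1 := by
  rw [← Matrix.diagonal_one, ten_diagonal]
  simp

lemma trace_ten [CharP R 2] (I : Finset ℕ) (A : Matrix (Fin 2) (Fin 2) R) :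
    (ten I A).trace = A.trace ^ (∑ i ∈ I, 2 ^ i) := by
  classical
  rw [Matrix.trace, Matrix.trace, Fin.sum_univ_two, ← Finset.prod_pow_eq_pow_sum]
  simp only [Matrix.diag, ten_apply, pow_add2]
  have h : ∏ i ∈ I, (A 0 0 ^ 2 ^ i + A 1 1 ^ 2 ^ i) =
      ∏ i : I, ∑ j : Fin 2, A j j ^ 2 ^ (i : ℕ) := by
    rw [← Finset.prod_coe_sort I fun i => (A 0 0 ^ 2 ^ i + A 1 1 ^ 2 ^ i)]
    refine Finset.prod_congr rfl fun i _ => ?_
    rw [Fin.sum_univ_two]
  rw [h, Finset.prod_univ_sum, Fintype.piFinset_univ]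

/-- the monoid homomorphism `A ↦ ⊗_{i ∈ I} A^(2^i)` -/
def tenHom [CharP R 2] (I : Finset ℕ) :
    Matrix (Fin 2) (Fin 2) R →* Matrix (I → Fin 2) (I → Fin 2) R where
  toFun := ten I
  map_one' := ten_one I
  map_mul' := ten_mul I

/-- weight of a basis vector -/
def wt (I : Finset ℕ) (b : I → Fin 2) : ℕ := ∑ i : I, (b i : ℕ) * 2 ^ (i : ℕ)

lemma wt_le (I : Finset ℕ) (b : I → Fin 2) : wt I b ≤ ∑ i ∈ I, 2 ^ i := by
  rw [← Finset.sum_coe_sort I fun i => 2 ^ i]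
  refine Finset.sum_le_sum fun i _ => ?_
  have : (b i : ℕ) ≤ 1 := by omega
  nlinarith [Nat.zero_le (2 ^ (i : ℕ))]

lemma sum_lt {n : ℕ} {I : Finset ℕ} (hI : I ⊆ Finset.range n) : ∑ i ∈ I, 2 ^ i < 2 ^ n := by
  calc ∑ i ∈ I, 2 ^ i ≤ ∑ i ∈ Finset.range n, 2 ^ i := Finset.sum_le_sum_of_subset hI
    _ < 2 ^ n := by
      have := Nat.geomSum_lt (m := 2) (n := n) (le_refl 2) (s := Finset.range n) (by simp)
      exact this

lemma wt_eq (I : Finset ℕ) (b : I → Fin 2) :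
    wt I b = ∑ i ∈ (Finset.univ.filter fun i : I => b i = 1).map (Function.Embedding.subtype _), 2 ^ i := by
  classical
  rw [Finset.sum_map, Finset.sum_filter]
  refine Finset.sum_congr rfl fun i _ => ?_
  by_cases h : b i = 1
  · rw [if_pos h, h]; simp
  · have h0 : b i = 0 := by omega
    rw [if_neg h, h0]; simp

lemma wt_injective (I : Finset ℕ) : Function.Injective (wt I) := by
  classical
  intro a b hab
  rw [wt_eq, wt_eq] at hab
  have h1 := Finset.geomSum_injective (le_refl 2) hab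
  have h2 := Finset.map_injective _ h1
  funext i
  have h3 : a i = 1 ↔ b i = 1 := by
    have := congrArg (fun s => i ∈ s) h2
    simpa using this
  omega

end Pool.Agent.TH6.UT
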