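import Pool.Agent.TH6.UT.Br2
import Pool.Agent.TH6.UT.Cnt

/-!
# Sums over roots of unity
-/

set_option linter.unusedSectionVars false

open scoped BigOperators MatrixGroups Classical
open Polynomial

noncomputable section

namespace Pool.Agent.TH6.UT

variable {O : ValuationSubring ℂ}

/-- the complex `m`-th roots of unity -/
def mu (m : ℕ) : Finset ℂ := nthRootsFinset m (1 : ℂ)

lemma mem_mu {m : ℕ} (hm : m ≠ 0) {Z : ℂ} : Z ∈ mu m ↔ Z ^ m = 1 :=
  mem_nthRootsFinset (Nat.pos_of_ne_zero hm) (1 : ℂ)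

/-- reduction of complex numbers -/
def rs (O : ValuationSubring ℂ) (Z : ℂ) : Res O :=
  if h : Z ∈ O then IsLocalRing.residue O ⟨Z, h⟩ else 0

lemma rs_coe (z : O) : rs O (z : ℂ) = IsLocalRing.residue O z := by
  unfold rs
  rw [dif_pos z.2]

/-- sum of the powers of the roots of unity -/
lemma sum_mu {m : ℕ} (hm : m ≠ 0) (j : ℤ) :
    ∑ Z ∈ mu m, Z ^ j = if (m : ℤ) ∣ j then (m : ℂ) else 0 := by
  have hprim := Complex.isPrimitiveRoot_exp m hm
  set ζ := Complex.exp (2 * Real.pi * Complex.I / m) with hζ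
  have hζ0 : ζ ≠ 0 := Complex.exp_ne_zero _
  by_cases hj : (m : ℤ) ∣ j
  · rw [if_pos hj]
    obtain ⟨k, rfl⟩ := hj
    rw [Finset.sum_congr rfl (g := fun _ => (1 : ℂ))]
    · rw [Finset.sum_const, nsmul_eq_mul, mul_one, mu, hprim.card_nthRootsFinset]
    · intro Z hZ
      rw [mem_mu hm] at hZ
      rw [zpow_mul, zpow_natCast, hZ, one_zpow]
  · rw [if_neg hj]
    -- multiplication by ζ permutes the roots
    have h1 : ∑ Z ∈ mu m, Z ^ j = ∑ Z ∈ mu m, (ζ * Z) ^ j := by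
      symm
      refine Finset.sum_nbij' (fun Z => ζ * Z) (fun Z => ζ⁻¹ * Z) ?_ ?_ ?_ ?_ ?_
      · intro Z hZ
        rw [mem_mu hm] at hZ ⊢
        rw [mul_pow, hprim.pow_eq_one, hZ, one_mul]
      · intro Z hZ
        rw [mem_mu hm] at hZ ⊢
        rw [mul_pow, inv_pow, hprim.pow_eq_one, hZ, inv_one, one_mul]
      · intro Z _; field_simp
      · intro Z _; field_simp
      · intro Z _; rfl
    have h2 : ∑ Z ∈ mu m, (ζ * Z) ^ j = ζ ^ j * ∑ Z ∈ mu m, Z ^ j := by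
      rw [Finset.mul_sum]
      exact Finset.sum_congr rfl fun Z _ => mul_zpow _ _ _
    have h3 : (ζ ^ j - 1) * ∑ Z ∈ mu m, Z ^ j = 0 := by
      rw [sub_mul, ← h2, ← h1, one_mul, sub_self]
    rcases mul_eq_zero.1 h3 with h4 | h4
    · exact absurd ((hprim.zpow_eq_one_iff_dvd j).1 (sub_eq_zero.1 h4)) hj
    · exact h4

/-- the number of coincidences modulo `m` -/
def cnt {X : Type} [Fintype X] (e : X → ℤ) (m : ℕ) : ℕ :=
  (Finset.univ.filter fun p : X × X => (m : ℤ) ∣ e p.1 + e p.2).card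

lemma sum_sq {m : ℕ} (hm : m ≠ 0) {X : Type} [Fintype X] (e : X → ℤ) :
    ∑ Z ∈ mu m, (∑ x, Z ^ e x) ^ 2 = (m : ℂ) * cnt e m := by
  have h1 : ∀ Z ∈ mu m, (∑ x, Z ^ e x) ^ 2 = ∑ p : X × X, Z ^ (e p.1 + e p.2) := by
    intro Z hZ
    have hZ0 : Z ≠ 0 := by
      rintro rfl
      rw [mem_mu hm, zero_pow hm] at hZ
      exact zero_ne_one hZ
    rw [sq, Finset.sum_mul_sum, Fintype.sum_prod_type]
    refine Finset.sum_congr rfl fun x _ => Finset.sum_congr rfl fun y _ => ?_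
    rw [zpow_add₀ hZ0]
  rw [Finset.sum_congr rfl h1, Finset.sum_comm]
  simp only [sum_mu hm]
  rw [cnt, Finset.card_filter]
  push_cast
  rw [Finset.mul_sum]
  refine Finset.sum_congr rfl fun p _ => ?_
  split_ifs <;> simp

variable {F : Type} [Field F] [Fintype F] [CharP F 2]

lemma lift_spec (hO : ((2 : ℕ) : ℂ) ∈ O.nonunits) {m : ℕ} (hm : ¬ 2 ∣ m) {x : Res O}
    (hx : x ^ m = 1) : ∃ z : O, (z : ℂ) ^ m = 1 ∧ IsLocalRing.residue O z = x ∧
      lift 2 O x = z := by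
  have hm0 : m ≠ 0 := fun h0 => hm (h0 ▸ dvd_zero 2)
  obtain ⟨z, hz, hzx⟩ := exists_lift hm0 hx
  exact ⟨z, hz, hzx, lift_eq Nat.prime_two hO hm hz hzx⟩

lemma mu_spec {m : ℕ} (hm : m ≠ 0) {Z : ℂ} (hZ : Z ∈ mu m) :
    ∃ z : O, (z : ℂ) = Z ∧ (z : ℂ) ^ m = 1 := by
  rw [mem_mu hm] at hZ
  exact ⟨⟨Z, root_mem hm hZ⟩, rfl, hZ⟩

lemma mem_range_of_pow {K : Type} [Field K] (ι : F →+* K) {t : K}
    (ht : t ^ Fintype.card F = t) : ∃ τ, ι τ = t := by
  by_contra hcon
  push Not at hcon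
  -- X^q - X has q + 1 roots
  set q := Fintype.card F with hq
  have hq1 : 1 < q := Fintype.one_lt_card
  set P : K[X] := X ^ q - X with hP
  have hP0 : P ≠ 0 := by
    exact FiniteField.X_pow_card_sub_X_ne_zero K hq1
  have hroots : insert t (Finset.univ.image fun τ => ι τ) ⊆ P.roots.toFinset := by
    intro y hy
    rw [Multiset.mem_toFinset, mem_roots hP0, IsRoot.def, hP, eval_sub, eval_pow, eval_X,
      sub_eq_zero]
    rcases Finset.mem_insert.1 hy with h | h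
    · rw [h]; exact ht
    · obtain ⟨τ, -, rfl⟩ := Finset.mem_image.1 h
      rw [← map_pow, FiniteField.pow_card]
  have h1 := Finset.card_le_card hroots
  rw [Finset.card_insert_of_notMem, Finset.card_image_of_injective _ ι.injective,
    Finset.card_univ, ← hq] at h1
  · have h2 := Multiset.toFinset_card_le P.roots
    have h3 := P.card_roots'
    have h4 : P.natDegree = q := FiniteField.X_pow_card_sub_X_natDegree_eq K hq1
    omega
  · intro h
    obtain ⟨τ, -, hτ⟩ := Finset.mem_image.1 h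
    exact hcon τ hτ

end Pool.Agent.TH6.UT
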