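import Pool.Agent.TH6.UT.Tor

/-!
# From sums over `F` to sums over roots of unity
-/

set_option linter.unusedSectionVars false

open scoped BigOperators MatrixGroups Classical
open Polynomial

noncomputable section

namespace Pool.Agent.TH6.UT

variable {O : ValuationSubring ℂ} {F : Type} [Field F] [Fintype F] [CharP F 2]

/-- `h` on `F` corresponds to `H` on roots of unity -/
def Corr (n : ℕ) (ι : F →+* Res O) (h : F → ℂ) (H : ℂ → ℂ) : Prop :=
  ∀ τ : F, τ ≠ 0 → ∀ z : O, ∀ m : ℕ, (m = 2 ^ n - 1 ∨ m = 2 ^ n + 1) → (z : ℂ) ^ m = 1 →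
    IsLocalRing.residue O z * IsLocalRing.residue O z + 1 = ι τ * IsLocalRing.residue O z →
    h τ = H z

lemma odd_m {n m : ℕ} (hn : 1 ≤ n) (h : m = 2 ^ n - 1 ∨ m = 2 ^ n + 1) : ¬ 2 ∣ m := by
  obtain ⟨k, rfl⟩ : ∃ k, n = k + 1 := ⟨n - 1, by omega⟩
  have hk : 1 ≤ 2 ^ k := Nat.one_le_two_pow
  rw [pow_succ] at h
  omega

lemma coe_pow_eq {z : O} {m : ℕ} (hz : (z : ℂ) ^ m = 1) : z ^ m = 1 := by exact_mod_cast hz

lemma res_ne_one (hO : ((2 : ℕ) : ℂ) ∈ O.nonunits) {m : ℕ} (hm : ¬ 2 ∣ m) {z : O}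
    (hz : (z : ℂ) ^ m = 1) (h1 : (z : ℂ) ≠ 1) : IsLocalRing.residue O z ≠ 1 := by
  intro h
  apply h1
  have := eq_of_res Nat.prime_two hO (y := z) (z := 1) (m := m) (n := 1) hm (by norm_num) hz
    (by simp) (by rw [h, map_one])
  rw [this]; simp

theorem claim1 {n : ℕ} (hn : 1 ≤ n) (hF : Fintype.card F = 2 ^ n)
    (hO : ((2 : ℕ) : ℂ) ∈ O.nonunits) [CharP (Res O) 2] (ι : F →+* Res O) {h : F → ℂ} {H : ℂ → ℂ}
    (hH : Corr n ι h H) : ∑ a ∈ Finset.univ.erase (0 : F), h (a + a⁻¹) =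
      h 0 + ∑ Z ∈ (mu (2 ^ n - 1)).erase 1, H Z := by
  have hm : ¬ 2 ∣ 2 ^ n - 1 := odd_m hn (Or.inl rfl)
  have hm0 : 2 ^ n - 1 ≠ 0 := fun h0 => hm (h0 ▸ dvd_zero 2)
  have hpos : 1 ≤ 2 ^ n := Nat.one_le_two_pow
  have hpw : ∀ a : F, a ≠ 0 → (ι a) ^ (2 ^ n - 1) = 1 := by
    intro a ha
    rw [← map_pow, ← hF, FiniteField.pow_card_sub_one_eq_one a ha, map_one]
  rw [← Finset.add_sum_erase (Finset.univ.erase (0 : F)) _
    (Finset.mem_erase.2 ⟨one_ne_zero, Finset.mem_univ (1 : F)⟩), inv_one, CharTwo.add_self_eq_zero]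
  congr 1
  refine Finset.sum_bij (fun a _ => lift 2 O (ι a)) ?_ ?_ ?_ ?_
  · intro a ha
    rw [Finset.mem_erase, Finset.mem_erase] at ha
    obtain ⟨z, hz1, hz2, hz3⟩ := lift_spec hO hm (hpw a ha.2.1)
    rw [hz3, Finset.mem_erase, mem_mu hm0]
    refine ⟨fun h1 => ha.1 ?_, hz1⟩
    have h2 : z = 1 := Subtype.ext (by simpa using h1)
    rw [h2, map_one] at hz2
    exact ι.injective (by rw [← hz2, map_one])
  · intro a ha b hb hab
    rw [Finset.mem_erase, Finset.mem_erase] at ha hb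
    obtain ⟨z, hz1, hz2, hz3⟩ := lift_spec hO hm (hpw a ha.2.1)
    obtain ⟨y, hy1, hy2, hy3⟩ := lift_spec hO hm (hpw b hb.2.1)
    simp only [hz3, hy3] at hab
    have : z = y := Subtype.ext hab
    apply ι.injective
    rw [← hz2, ← hy2, this]
  · intro Z hZ
    rw [Finset.mem_erase] at hZ
    obtain ⟨z, hz1, hz2⟩ := mu_spec hm0 hZ.2
    have hz' : z ^ (2 ^ n - 1) = 1 := coe_pow_eq hz2
    have hx : (IsLocalRing.residue O z) ^ (2 ^ n - 1) = 1 := by rw [← map_pow, hz', map_one]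
    have hx2 : (IsLocalRing.residue O z) ^ Fintype.card F = IsLocalRing.residue O z := by
      rw [hF, ← Nat.sub_add_cancel hpos, pow_succ, hx, one_mul]
    obtain ⟨a, ha⟩ := mem_range_of_pow ι hx2
    have hne : IsLocalRing.residue O z ≠ 1 :=
      res_ne_one hO hm hz2 (by rw [hz1]; exact hZ.1)
    refine ⟨a, ?_, ?_⟩
    · rw [Finset.mem_erase, Finset.mem_erase]
      refine ⟨fun h1 => hne ?_, fun h0 => ?_, Finset.mem_univ _⟩
      · rw [← ha, h1, map_one]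
      · rw [← ha, h0, map_zero, zero_pow hm0] at hx
        exact zero_ne_one hx
    · rw [lift_eq Nat.prime_two hO hm hz2 ha.symm, hz1]
  · intro a ha
    rw [Finset.mem_erase, Finset.mem_erase] at ha
    obtain ⟨z, hz1, hz2, hz3⟩ := lift_spec hO hm (hpw a ha.2.1)
    have h2 : (2 : F) = 0 := CharTwo.two_eq_zero
    have hne : a + a⁻¹ ≠ 0 := by
      intro h0
      have h3 : a * a = 1 := by
        have h4 : a * (a + a⁻¹) = 0 := by rw [h0, mul_zero]
        rw [mul_add, mul_inv_cancel₀ ha.2.1] at h4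
        linear_combination h4 - h2
      have h5 : (a - 1) ^ 2 = 0 := by linear_combination h3 + (1 - a) * h2
      exact ha.1 (sub_eq_zero.1 (pow_eq_zero_iff (two_ne_zero) |>.1 h5))
    simp only [hz3]
    refine hH _ hne z _ (Or.inl rfl) hz1 ?_
    rw [hz2, ← map_mul, ← map_mul, ← map_one ι, ← map_add]
    congr 1
    rw [add_mul, inv_mul_cancel₀ ha.2.1]

/-- the element `τ` with `ι τ = x + 1/x`, `x` the reduction of `Z` -/
def theta (ι : F →+* Res O) (Z : ℂ) : F :=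
  if h : ∃ τ : F, rs O Z * rs O Z + 1 = ι τ * rs O Z then h.choose else 0

theorem claim2 {n : ℕ} (hn : 1 ≤ n) (hF : Fintype.card F = 2 ^ n)
    (hO : ((2 : ℕ) : ℂ) ∈ O.nonunits) [CharP (Res O) 2] [IsAlgClosed (Res O)] (ι : F →+* Res O)
    {h : F → ℂ} {H : ℂ → ℂ} (hH : Corr n ι h H) : 2 * ∑ τ ∈ Finset.univ.erase (0 : F), h τ =
      ∑ Z ∈ (mu (2 ^ n - 1)).erase 1, H Z + ∑ Z ∈ (mu (2 ^ n + 1)).erase 1, H Z := by
  have hpos : 1 ≤ 2 ^ n := Nat.one_le_two_pow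
  have ho1 : ¬ 2 ∣ 2 ^ n - 1 := odd_m hn (Or.inl rfl)
  have ho2 : ¬ 2 ∣ 2 ^ n + 1 := odd_m hn (Or.inr rfl)
  have hm1 : 2 ^ n - 1 ≠ 0 := fun h0 => ho1 (h0 ▸ dvd_zero 2)
  have hm2 : 2 ^ n + 1 ≠ 0 := by omega
  have h2F : (2 : F) = 0 := CharTwo.two_eq_zero
  have h2K : (2 : Res O) = 0 := CharTwo.two_eq_zero
  have hdisj : Disjoint ((mu (2 ^ n - 1)).erase 1) ((mu (2 ^ n + 1)).erase 1) := by
    rw [Finset.disjoint_left]
    intro Z h1 h2
    rw [Finset.mem_erase, mem_mu hm1] at h1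
    rw [Finset.mem_erase, mem_mu hm2] at h2
    apply h1.1
    have h3 : Z ^ 2 = 1 := by
      have h4 : Z ^ (2 ^ n + 1) = Z ^ (2 ^ n - 1) * Z ^ 2 := by
        rw [← pow_add]
        congr 1
        omega
      rw [h2.2, h1.2, one_mul] at h4
      exact h4.symm
    obtain ⟨k, hk⟩ : ∃ k, 2 ^ n + 1 = 2 * k + 1 := ⟨2 ^ (n - 1), by
      rw [← pow_succ', Nat.sub_add_cancel hn]⟩
    have h5 := h2.2
    rw [hk, pow_succ, pow_mul, h3, one_pow, one_mul] at h5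
    exact h5
  rw [← Finset.sum_union hdisj]
  set T := (mu (2 ^ n - 1)).erase 1 ∪ (mu (2 ^ n + 1)).erase 1 with hT
  -- description of T
  have hTmem : ∀ Z : ℂ, Z ∈ T ↔ Z ≠ 1 ∧ ∃ m, (m = 2 ^ n - 1 ∨ m = 2 ^ n + 1) ∧ Z ^ m = 1 := by
    intro Z
    rw [hT, Finset.mem_union, Finset.mem_erase, Finset.mem_erase, mem_mu hm1, mem_mu hm2]
    constructor
    · rintro (⟨h1, h2⟩ | ⟨h1, h2⟩)
      · exact ⟨h1, _, Or.inl rfl, h2⟩
      · exact ⟨h1, _, Or.inr rfl, h2⟩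
    · rintro ⟨h1, m, rfl | rfl, h2⟩
      · exact Or.inl ⟨h1, h2⟩
      · exact Or.inr ⟨h1, h2⟩
  -- elements of T are elements of O
  have hTO : ∀ Z ∈ T, ∃ z : O, (z : ℂ) = Z ∧ ∃ m, (m = 2 ^ n - 1 ∨ m = 2 ^ n + 1) ∧
      (z : ℂ) ^ m = 1 := by
    intro Z hZ
    obtain ⟨h1, m, hm, h2⟩ := (hTmem Z).1 hZ
    have hm0 : m ≠ 0 := by rcases hm with rfl | rfl <;> assumption
    exact ⟨⟨Z, root_mem hm0 h2⟩, rfl, m, hm, h2⟩
  have hth : ∀ Z ∈ T, theta ι Z ≠ 0 ∧ rs O Z * rs O Z + 1 = ι (theta ι Z) * rs O Z ∧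
      rs O Z ≠ 0 := by
    intro Z hZ
    obtain ⟨z, hz1, m, hm, hz2⟩ := hTO Z hZ
    have hodd := odd_m hn hm
    have hm0 : m ≠ 0 := fun h0 => hodd (h0 ▸ dvd_zero 2)
    have hxm : (IsLocalRing.residue O z) ^ m = 1 := by rw [← map_pow, coe_pow_eq hz2, map_one]
    have hne : IsLocalRing.residue O z ≠ 1 :=
      res_ne_one hO hodd hz2 (by rw [hz1]; exact ((hTmem Z).1 hZ).1)
    set x := IsLocalRing.residue O z with hx
    have hrs : rs O Z = x := by rw [← hz1, rs_coe]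
    have hx0 : x ≠ 0 := by
      intro h0
      rw [h0, zero_pow hm0] at hxm
      exact zero_ne_one hxm
    have ht : (x + x⁻¹) ^ Fintype.card F = x + x⁻¹ := by
      rw [hF, pow_add2, inv_pow]
      rcases hm with rfl | rfl
      · have h3 : x ^ 2 ^ n = x := by
          rw [← Nat.sub_add_cancel hpos, pow_succ, hxm, one_mul]
        rw [h3]
      · have h3 : x ^ 2 ^ n = x⁻¹ := by
          rw [pow_succ] at hxm
          exact eq_inv_of_mul_eq_one_left hxm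
        rw [h3, inv_inv, add_comm]
    obtain ⟨τ, hτ⟩ := mem_range_of_pow ι ht
    have hex : ∃ τ : F, rs O Z * rs O Z + 1 = ι τ * rs O Z :=
      ⟨τ, by rw [hrs, hτ, add_mul, inv_mul_cancel₀ hx0]⟩
    have hspec : rs O Z * rs O Z + 1 = ι (theta ι Z) * rs O Z := by
      unfold theta
      rw [dif_pos hex]
      exact hex.choose_spec
    refine ⟨fun h0 => ?_, hspec, by rw [hrs]; exact hx0⟩
    rw [h0, map_zero, zero_mul, hrs] at hspec
    have h5 : (x - 1) ^ 2 = 0 := by linear_combination hspec - x * h2K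
    exact hne (sub_eq_zero.1 (pow_eq_zero_iff (two_ne_zero) |>.1 h5))
  rw [← Finset.sum_fiberwise_of_maps_to (s := T) (t := Finset.univ.erase (0 : F)) (g := theta ι)
    (fun Z hZ => Finset.mem_erase.2 ⟨(hth Z hZ).1, Finset.mem_univ _⟩), Finset.mul_sum]
  refine Finset.sum_congr rfl fun τ hτ => ?_
  have hτ0 : τ ≠ 0 := Finset.ne_of_mem_erase hτ
  -- the two roots
  obtain ⟨x, hx⟩ := root_exists (ι τ)
  obtain ⟨hx0, hx1⟩ := root_ne hτ0 ι hx
  obtain ⟨m, hm, hxm⟩ : ∃ m, (m = 2 ^ n - 1 ∨ m = 2 ^ n + 1) ∧ x ^ m = 1 := by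
    rcases root_pow hF ι hx0 hx with h1 | h1
    · exact ⟨_, Or.inl rfl, h1⟩
    · exact ⟨_, Or.inr rfl, h1⟩
  have hodd := odd_m hn hm
  have hm0 : m ≠ 0 := fun h0 => hodd (h0 ▸ dvd_zero 2)
  have hxim : x⁻¹ ^ m = 1 := by rw [inv_pow, hxm, inv_one]
  have hxi : x⁻¹ * x⁻¹ + 1 = ι τ * x⁻¹ := by
    field_simp
    linear_combination hx
  obtain ⟨z, hz1, hz2, -⟩ := lift_spec hO hodd hxm
  obtain ⟨y, hy1, hy2, -⟩ := lift_spec hO hodd hxim
  have hzy : (z : ℂ) ≠ (y : ℂ) := by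
    intro h1
    have h3 : z = y := Subtype.ext h1
    rw [h3, hy2] at hz2
    exact hx1 (by rw [hz2, sub_self])
  have hx_ne : ∀ w : Res O, w * w + 1 = ι τ * w → w ≠ 1 := by
    rintro w hw rfl
    obtain ⟨-, h3⟩ := root_ne hτ0 ι hw
    exact h3 (by simp)
  have hfil : T.filter (fun Z => theta ι Z = τ) = {(z : ℂ), (y : ℂ)} := by
    ext Z
    rw [Finset.mem_filter, Finset.mem_insert, Finset.mem_singleton]
    constructor
    · rintro ⟨hZ, hZτ⟩
      obtain ⟨-, h3, h4⟩ := hth Z hZ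
      rw [hZτ] at h3
      obtain ⟨w, hw1, m', hm', hw2⟩ := hTO Z hZ
      have hodd' := odd_m hn hm'
      rw [← hw1, rs_coe] at h3 h4
      have h5 : (IsLocalRing.residue O w - x) * (IsLocalRing.residue O w - x⁻¹) = 0 := by
        have h6 : x + x⁻¹ = ι τ := by
          field_simp
          linear_combination hx
        have h7 : x * x⁻¹ = 1 := mul_inv_cancel₀ hx0
        linear_combination h3 + h7 - (IsLocalRing.residue O w) * h6
      rcases mul_eq_zero.1 h5 with h6 | h6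
      · left
        rw [← hw1, eq_of_res Nat.prime_two hO hodd' hodd hw2 hz1 (by rw [hz2]; exact sub_eq_zero.1 h6)]
      · right
        rw [← hw1, eq_of_res Nat.prime_two hO hodd' hodd hw2 hy1 (by rw [hy2]; exact sub_eq_zero.1 h6)]
    · have key : ∀ w : O, (w : ℂ) ^ m = 1 → IsLocalRing.residue O w * IsLocalRing.residue O w + 1 =
          ι τ * IsLocalRing.residue O w → (w : ℂ) ∈ T ∧ theta ι (w : ℂ) = τ := by
        intro w hw1 hw2
        have hwT : (w : ℂ) ∈ T := by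
          rw [hTmem]
          refine ⟨fun h1 => hx_ne _ hw2 ?_, m, hm, hw1⟩
          have : w = 1 := Subtype.ext (by simpa using h1)
          rw [this, map_one]
        refine ⟨hwT, ?_⟩
        obtain ⟨-, h3, h4⟩ := hth _ hwT
        rw [rs_coe] at h3 h4
        rw [hw2] at h3
        exact (ι.injective (mul_right_cancel₀ h4 h3)).symm
      rintro (rfl | rfl)
      · exact key z hz1 (by rw [hz2]; exact hx)
      · exact key y hy1 (by rw [hy2]; exact hxi)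
  rw [hfil, Finset.sum_pair hzy]
  rw [← hH τ hτ0 z m hm hz1 (by rw [hz2]; exact hx), ← hH τ hτ0 y m hm hy1 (by rw [hy2]; exact hxi)]
  ring

end Pool.Agent.TH6.UT
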